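import Pool.Agent.H9.BI.Vol

open MeasureTheory Set Metric Filter
open scoped ENNReal NNReal Topology Gradient RealInnerProductSpace

namespace Pool.Agent.H9.BI

variable {m : ℕ}

/-- axial coordinate -/
noncomputable def zc (c e x : Eu m) : ℝ := ⟪x - c, e⟫
/-- squared distance from the axis -/
noncomputable def rr (c e x : Eu m) : ℝ := ‖x - c‖ ^ 2 - (zc c e x) ^ 2

/-- the barrier -/
noncomputable def psi (c e : Eu m) (L Λ h : ℝ) (x : Eu m) : ℝ :=
  zc c e x - h * (zc c e x + Λ * (zc c e x) ^ 2) + rr c e x / L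

/-- its gradient -/
noncomputable def Vf (c e : Eu m) (L Λ h : ℝ) (x : Eu m) : Eu m :=
  ((1 - h) + (-(2 * h * Λ) - 2 / L) * ⟪x - c, e⟫) • e + (2 / L) • (x - c)

noncomputable def Df (c e : Eu m) (L Λ h : ℝ) (x : Eu m) : ℝ := 1 - ‖Vf c e L Λ h x‖ ^ 2

theorem inner_e_e {e : Eu m} (he : ‖e‖ = 1) : ⟪e, e⟫ = (1:ℝ) := by
  rw [real_inner_self_eq_norm_sq, he]; norm_num

theorem rr_nonneg (c : Eu m) {e : Eu m} (he : ‖e‖ = 1) (x : Eu m) : 0 ≤ rr c e x := by
  unfold rr zc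
  have := abs_real_inner_le_norm (x - c) e
  rw [he, mul_one] at this
  have h2 := sq_le_sq' (neg_le_of_abs_le this) (le_of_abs_le this)
  linarith

theorem norm_sub_axis (c : Eu m) {e : Eu m} (he : ‖e‖ = 1) (x : Eu m) (s : ℝ) :
    ‖x - (c + s • e)‖ ^ 2 = (zc c e x - s) ^ 2 + rr c e x := by
  unfold rr zc
  rw [show x - (c + s • e) = (x - c) - s • e by abel, norm_sub_sq_real, norm_smul, he,
    real_inner_smul_right]
  simp only [Real.norm_eq_abs, mul_one, sq_abs]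
  ring

theorem Df_eq (c : Eu m) {e : Eu m} (he : ‖e‖ = 1) (L Λ h : ℝ) (x : Eu m) :
    Df c e L Λ h x = 1 - (1 - h * (1 + 2 * Λ * zc c e x)) ^ 2 - (2 / L) ^ 2 * rr c e x := by
  unfold Df Vf rr zc
  rw [norm_add_sq_real, norm_smul, norm_smul, he, real_inner_smul_left, real_inner_smul_right,
    real_inner_comm]
  simp only [Real.norm_eq_abs, mul_pow, mul_one, sq_abs]
  ring

theorem inner_Vf_e (c : Eu m) {e : Eu m} (he : ‖e‖ = 1) (L Λ h : ℝ) (x : Eu m) :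
    ⟪e, Vf c e L Λ h x⟫ = 1 - h * (1 + 2 * Λ * zc c e x) := by
  unfold Vf zc
  rw [inner_add_right, real_inner_smul_right, real_inner_smul_right, inner_e_e he,
    real_inner_comm]
  ring

theorem inner_Vf_x (c : Eu m) {e : Eu m} (L Λ h : ℝ) (x : Eu m) :
    ⟪x - c, Vf c e L Λ h x⟫ =
      zc c e x * (1 - h * (1 + 2 * Λ * zc c e x)) + (2 / L) * rr c e x := by
  unfold Vf rr zc
  rw [inner_add_right, real_inner_smul_right, real_inner_smul_right, real_inner_self_eq_norm_sq]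
  ring

theorem hasFDerivAt_zc (c e x : Eu m) : HasFDerivAt (zc c e) (innerSL ℝ e) x := by
  have h1 : HasFDerivAt (fun x : Eu m => x - c) (ContinuousLinearMap.id ℝ (Eu m)) x :=
    (hasFDerivAt_id x).sub_const c
  have h2 := (innerSL ℝ e).hasFDerivAt.comp x h1
  have : zc c e = (innerSL ℝ e) ∘ fun x => x - c := by
    funext y; simp [zc, real_inner_comm]
  rw [this]
  simpa using h2

theorem hasFDerivAt_normsq (c x : Eu m) :
    HasFDerivAt (fun y : Eu m => ‖y - c‖ ^ 2) ((2:ℝ) • innerSL ℝ (x - c)) x := by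
  have h1 : HasFDerivAt (fun x : Eu m => x - c) (ContinuousLinearMap.id ℝ (Eu m)) x :=
    (hasFDerivAt_id x).sub_const c
  have h2 := h1.norm_sq
  refine h2.congr_fderiv ?_
  ext v; simp [two_smul]

theorem hasFDerivAt_rr (c e x : Eu m) :
    HasFDerivAt (rr c e) ((2:ℝ) • innerSL ℝ (x - c) - (2 * zc c e x) • innerSL ℝ e) x := by
  have h1 := hasFDerivAt_normsq c x
  have h2 := (hasFDerivAt_zc c e x).pow 2
  have h3 := h1.sub h2
  refine h3.congr_fderiv ?_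
  ext v; simp

theorem hasFDerivAt_psi (c e : Eu m) (L Λ h : ℝ) (x : Eu m) :
    HasFDerivAt (psi c e L Λ h) (innerSL ℝ (Vf c e L Λ h x)) x := by
  have hz := hasFDerivAt_zc c e x
  have hr := hasFDerivAt_rr c e x
  have h1 := (hz.sub ((hz.add ((hz.pow 2).const_mul Λ)).const_mul h)).add (hr.const_mul (1 / L))
  have hpsi : psi c e L Λ h = fun y => zc c e y - h * (zc c e y + Λ * (zc c e y) ^ 2) +
      1 / L * rr c e y := by
    funext y; unfold psi; ring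
  rw [hpsi]
  refine (h1.congr_fderiv ?_)
  ext v
  simp only [Vf, zc, map_add, map_smul, add_apply,
    sub_apply, smul_apply, innerSL_apply_apply, smul_eq_mul,
    Nat.cast_ofNat, Nat.add_one_sub_one, pow_one, nsmul_eq_mul]
  ring

theorem gradient_psi (c e : Eu m) (L Λ h : ℝ) (x : Eu m) :
    ∇ (psi c e L Λ h) x = Vf c e L Λ h x := by
  have : HasGradientAt (psi c e L Λ h) (Vf c e L Λ h x) x := by
    rw [hasGradientAt_iff_hasFDerivAt]
    exact hasFDerivAt_psi c e L Λ h x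
  exact this.gradient

theorem hasFDerivAt_Df (c : Eu m) {e : Eu m} (he : ‖e‖ = 1) (L Λ h : ℝ) (x : Eu m) :
    HasFDerivAt (Df c e L Λ h)
      ((4 * h * Λ * (1 - h * (1 + 2 * Λ * zc c e x))) • innerSL ℝ e -
        (2 / L) ^ 2 • ((2:ℝ) • innerSL ℝ (x - c) - (2 * zc c e x) • innerSL ℝ e)) x := by
  have hz := hasFDerivAt_zc c e x
  have hr := hasFDerivAt_rr c e x
  have h1 : HasFDerivAt (fun y => 1 - (1 - h * (1 + 2 * Λ * zc c e y)) ^ 2
      - (2 / L) ^ 2 * rr c e y) _ x :=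
    ((((((hz.const_mul (2 * Λ)).const_add 1).const_mul h).const_sub 1).pow 2).const_sub 1).sub
      (hr.const_mul ((2 / L) ^ 2))
  have : Df c e L Λ h = fun y => 1 - (1 - h * (1 + 2 * Λ * zc c e y)) ^ 2
      - (2 / L) ^ 2 * rr c e y := by
    funext y; exact Df_eq c he L Λ h y
  rw [this]
  refine (h1.congr_fderiv ?_)
  ext v
  simp only [sub_apply, neg_apply,
    smul_apply, innerSL_apply_apply, smul_eq_mul,
    Nat.cast_ofNat, Nat.add_one_sub_one, pow_one, nsmul_eq_mul]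
  ring

theorem fderiv_Df_Vf (c : Eu m) {e : Eu m} (he : ‖e‖ = 1) (L Λ h : ℝ) (x : Eu m) :
    fderiv ℝ (Df c e L Λ h) x (Vf c e L Λ h x) =
      4 * h * Λ * (1 - h * (1 + 2 * Λ * zc c e x)) ^ 2 - 2 * (2 / L) ^ 3 * rr c e x := by
  rw [(hasFDerivAt_Df c he L Λ h x).fderiv]
  simp only [sub_apply,
    smul_apply, innerSL_apply_apply, smul_eq_mul, inner_Vf_e c he,
    inner_Vf_x c]
  ring

theorem continuous_zc (c e : Eu m) : Continuous (zc c e) := by unfold zc; fun_prop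
theorem continuous_rr (c e : Eu m) : Continuous (rr c e) := by unfold rr zc; fun_prop
theorem contDiff_zc (c e : Eu m) : ContDiff ℝ 1 (zc c e) := by
  unfold zc
  exact (contDiff_id.sub contDiff_const).inner ℝ contDiff_const
theorem contDiff_rr (c e : Eu m) : ContDiff ℝ 1 (rr c e) := by
  unfold rr
  exact ((contDiff_id.sub contDiff_const).norm_sq ℝ).sub ((contDiff_zc c e).pow 2)
theorem contDiff_psi (c e : Eu m) (L Λ h : ℝ) : ContDiff ℝ 1 (psi c e L Λ h) := by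
  unfold psi
  have := contDiff_zc c e
  have := contDiff_rr c e
  fun_prop
theorem contDiff_Df (c : Eu m) {e : Eu m} (he : ‖e‖ = 1) (L Λ h : ℝ) :
    ContDiff ℝ 1 (Df c e L Λ h) := by
  have : Df c e L Λ h = fun y => 1 - (1 - h * (1 + 2 * Λ * zc c e y)) ^ 2
      - (2 / L) ^ 2 * rr c e y := by
    funext y; exact Df_eq c he L Λ h y
  rw [this]
  have := contDiff_zc c e
  have := contDiff_rr c e
  fun_prop

/-- elementary bounds for `D` on the set where the barrier is below `u` -/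
theorem Df_bounds (hm : 2 ≤ m) (c : Eu m) {e : Eu m} (he : ‖e‖ = 1) {L t : ℝ} (hL : 0 < L)
    (ht : 0 < t) (ht1 : t ^ 2 ≤ 1 / 8) {x : Eu m} (hz0 : 0 < zc c e x)
    (hz1 : zc c e x ≤ L / (32 * m)) (hr : rr c e x ≤ 3 * L * t ^ 2 * zc c e x) :
    t ^ 2 < Df c e L (16 * m / L) (t ^ 2) x ∧ Df c e L (16 * m / L) (t ^ 2) x ≤ 4 * t ^ 2 ∧
      Df c e L (16 * m / L) (t ^ 2) x ≤
        2 * t ^ 2 * (1 + 2 * (16 * m / L) * zc c e x) - (2 / L) ^ 2 * rr c e x := by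
  have hm' : (2:ℝ) ≤ m := by exact_mod_cast hm
  have hm0 : (0:ℝ) < m := by linarith
  set z := zc c e x with hz
  set q := rr c e x with hq
  have hq0 : 0 ≤ q := rr_nonneg c he x
  have hΛz : 16 * m / L * z ≤ 1 / 2 := by
    calc 16 * m / L * z ≤ 16 * m / L * (L / (32 * m)) := by gcongr
      _ = 1 / 2 := by field_simp; norm_num
  have hΛz0 : 0 ≤ 16 * m / L * z := by positivity
  have hf1 : 1 ≤ 1 + 2 * (16 * m / L) * z := by nlinarith
  have hf2 : 1 + 2 * (16 * m / L) * z ≤ 2 := by nlinarith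
  set f := 1 + 2 * (16 * m / L) * z with hf
  have hKq : (2 / L) ^ 2 * q ≤ 3 / 16 * t ^ 2 := by
    have h1 : (2 / L) ^ 2 * q ≤ (2 / L) ^ 2 * (3 * L * t ^ 2 * (L / (32 * m))) := by
      gcongr
      calc q ≤ 3 * L * t ^ 2 * z := hr
        _ ≤ 3 * L * t ^ 2 * (L / (32 * m)) := by gcongr
    have h2 : (2 / L) ^ 2 * (3 * L * t ^ 2 * (L / (32 * m))) = 3 / 8 * t ^ 2 / m := by
      field_simp; ring
    rw [h2] at h1
    have h3 : 3 / 8 * t ^ 2 / m ≤ 3 / 8 * t ^ 2 / 2 := by gcongr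
    linarith
  have hKq0 : 0 ≤ (2 / L) ^ 2 * q := by positivity
  have hD : Df c e L (16 * m / L) (t ^ 2) x = 1 - (1 - t ^ 2 * f) ^ 2 - (2 / L) ^ 2 * q := by
    rw [Df_eq c he]
  have ht2 : 0 < t ^ 2 := by positivity
  have htf : t ^ 2 * f ≤ 1 / 4 := by nlinarith
  have htf0 : t ^ 2 ≤ t ^ 2 * f := by nlinarith
  refine ⟨?_, ?_, ?_⟩
  · rw [hD]
    nlinarith
  · rw [hD]
    nlinarith [sq_nonneg (t ^ 2 * f)]
  · rw [hD]
    nlinarith [sq_nonneg (t ^ 2 * f)]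

/-- the curvature inequality -/
theorem curvature (hm : 2 ≤ m) (c : Eu m) {e : Eu m} (he : ‖e‖ = 1) {L t : ℝ} (hL : 0 < L)
    (ht : 0 < t) (ht1 : t ^ 2 ≤ 1 / 8) {x : Eu m} (hz0 : 0 < zc c e x)
    (hz1 : zc c e x ≤ L / (32 * m)) (hr : rr c e x ≤ 3 * L * t ^ 2 * zc c e x) :
    let D := Df c e L (16 * m / L) (t ^ 2) x
    let w := (√D)⁻¹
    w * (2 / L * m + (-(2 * t ^ 2 * (16 * m / L)) - 2 / L)) -
      w ^ 3 / 2 * (4 * t ^ 2 * (16 * m / L) * (1 - t ^ 2 * (1 + 2 * (16 * m / L) * zc c e x)) ^ 2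
        - 2 * (2 / L) ^ 3 * rr c e x) ≤ -(m / (L * t)) := by
  intro D w
  obtain ⟨hD1, hD2, hD3⟩ := Df_bounds hm c he hL ht ht1 hz0 hz1 hr
  have hm' : (2:ℝ) ≤ m := by exact_mod_cast hm
  have hm0 : (0:ℝ) < m := by linarith
  set z := zc c e x with hz
  set q := rr c e x with hq
  have hq0 : 0 ≤ q := rr_nonneg c he x
  have hΛz : 16 * m / L * z ≤ 1 / 2 := by
    calc 16 * m / L * z ≤ 16 * m / L * (L / (32 * m)) := by gcongr
      _ = 1 / 2 := by field_simp; norm_num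
  have hΛz0 : 0 ≤ 16 * m / L * z := by positivity
  have hf1 : 1 ≤ 1 + 2 * (16 * m / L) * z := by nlinarith
  have hf2 : 1 + 2 * (16 * m / L) * z ≤ 2 := by nlinarith
  set f := 1 + 2 * (16 * m / L) * z with hf
  have ht2 : 0 < t ^ 2 := by positivity
  have hDpos : 0 < D := ht2.trans hD1
  have hsq : √D ^ 2 = D := Real.sq_sqrt hDpos.le
  have hsD : 0 < √D := Real.sqrt_pos.2 hDpos
  have hs1 : √D ≤ 2 * t := by
    apply Real.sqrt_le_iff.2
    refine ⟨by positivity, ?_⟩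
    calc D ≤ 4 * t ^ 2 := hD2
      _ = (2 * t) ^ 2 := by ring
  have hw0 : 0 < w := by positivity
  have hw3 : 1 / (8 * t ^ 3) ≤ w ^ 3 := by
    have : 1 / (2 * t) ≤ w := by
      show 1 / (2 * t) ≤ (√D)⁻¹
      rw [← one_div]
      exact one_div_le_one_div_of_le hsD hs1
    calc 1 / (8 * t ^ 3) = (1 / (2 * t)) ^ 3 := by field_simp; norm_num
      _ ≤ w ^ 3 := by gcongr
  have hwD : w = w ^ 3 * D := by
    show (√D)⁻¹ = (√D)⁻¹ ^ 3 * D
    rw [← hsq]
    have : √(√D ^ 2) = √D := by rw [hsq]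
    rw [this]
    field_simp
  have htf : t ^ 2 * f ≤ 1 / 4 := by nlinarith
  have h916 : 9 / 16 ≤ (1 - t ^ 2 * f) ^ 2 := by
    have h34 : 3 / 4 ≤ 1 - t ^ 2 * f := by linarith
    nlinarith
  -- the bracket
  have hbr : D * (2 / L * m + (-(2 * t ^ 2 * (16 * m / L)) - 2 / L)) -
      1 / 2 * (4 * t ^ 2 * (16 * m / L) * (1 - t ^ 2 * f) ^ 2 - 2 * (2 / L) ^ 3 * q) ≤
      -(10 * m * t ^ 2 / L) := by
    have e1 : D * (2 / L * m + (-(2 * t ^ 2 * (16 * m / L)) - 2 / L)) ≤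
        (2 / L * (m - 1)) * (2 * t ^ 2 * f - (2 / L) ^ 2 * q) := by
      have e11 : D * (2 / L * m + (-(2 * t ^ 2 * (16 * m / L)) - 2 / L)) =
          (2 / L * (m - 1)) * D - 2 * t ^ 2 * (16 * m / L) * D := by ring
      have e12 : 0 ≤ 2 * t ^ 2 * (16 * m / L) * D := by positivity
      have e13 : (2 / L * (m - 1)) * D ≤ (2 / L * (m - 1)) * (2 * t ^ 2 * f - (2 / L) ^ 2 * q) := by
        apply mul_le_mul_of_nonneg_left hD3
        have : (0:ℝ) ≤ m - 1 := by linarith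
        positivity
      linarith
    have e2 : (2 / L * (m - 1)) * (2 * t ^ 2 * f - (2 / L) ^ 2 * q) -
        1 / 2 * (4 * t ^ 2 * (16 * m / L) * (1 - t ^ 2 * f) ^ 2 - 2 * (2 / L) ^ 3 * q) =
        (4 * t ^ 2 * (m - 1) / L) * f - (m - 2) * ((2 / L) ^ 3 * q) -
          32 * t ^ 2 * m / L * (1 - t ^ 2 * f) ^ 2 := by
      ring
    have e3 : (4 * t ^ 2 * (m - 1) / L) * f ≤ 8 * t ^ 2 * m / L := by
      have hm1 : (0:ℝ) ≤ m - 1 := by linarith
      calc (4 * t ^ 2 * (m - 1) / L) * f ≤ (4 * t ^ 2 * (m - 1) / L) * 2 := by gcongr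
        _ ≤ (4 * t ^ 2 * m / L) * 2 := by gcongr; linarith
        _ = 8 * t ^ 2 * m / L := by ring
    have e4 : 0 ≤ (m - 2 : ℝ) * ((2 / L) ^ 3 * q) := by
      have hm1 : (0:ℝ) ≤ m - 2 := by linarith
      positivity
    have e5 : 32 * t ^ 2 * m / L * (9 / 16) ≤ 32 * t ^ 2 * m / L * (1 - t ^ 2 * f) ^ 2 := by
      gcongr
    have e6 : 32 * t ^ 2 * m / L * (9 / 16) = 18 * t ^ 2 * m / L := by ring
    have e7 : 8 * t ^ 2 * m / L - 18 * t ^ 2 * m / L = -(10 * m * t ^ 2 / L) := by ring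
    linarith
  calc w * (2 / L * m + (-(2 * t ^ 2 * (16 * m / L)) - 2 / L)) -
      w ^ 3 / 2 * (4 * t ^ 2 * (16 * m / L) * (1 - t ^ 2 * f) ^ 2 - 2 * (2 / L) ^ 3 * q)
      = w ^ 3 * (D * (2 / L * m + (-(2 * t ^ 2 * (16 * m / L)) - 2 / L)) -
      1 / 2 * (4 * t ^ 2 * (16 * m / L) * (1 - t ^ 2 * f) ^ 2 - 2 * (2 / L) ^ 3 * q)) := by
        conv_lhs => rw [hwD]
        have : w ^ 3 * D = w := hwD.symm
        simp only [this]
        linear_combination (2 / L * m + (-(2 * t ^ 2 * (16 * m / L)) - 2 / L)) * hwD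
    _ ≤ w ^ 3 * (-(10 * m * t ^ 2 / L)) := by gcongr
    _ ≤ 1 / (8 * t ^ 3) * (-(10 * m * t ^ 2 / L)) := by
        have : 0 ≤ 10 * m * t ^ 2 / L := by positivity
        nlinarith
    _ ≤ -(m / (L * t)) := by
        have : 1 / (8 * t ^ 3) * (-(10 * m * t ^ 2 / L)) = -(10 / 8 * (m / (L * t))) := by
          field_simp
        rw [this]
        have : 0 ≤ m / (L * t) := by positivity
        linarith

end Pool.Agent.H9.BI
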