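import Pool.Agent.H9.BI.Energy

open MeasureTheory Set Metric Filter
open scoped ENNReal NNReal Topology Gradient RealInnerProductSpace

namespace Pool.Agent.H9.BI

variable {m : ℕ}
variable {c e : Eu m} {U : Eu m → ℝ} {uc L τ η t : ℝ}

theorem LocData.gg_le (H : LocData c e U uc L τ η) (ht : 0 < t) (ht1 : t ^ 2 ≤ 1 / 8)
    (x : Eu m) : gg c e U uc L τ t x ≤ t ^ 2 * L := by
  rcases (gg_nonneg (c := c) (e := e) (U := U) (uc := uc) (L := L) (τ := τ) (t := t) x).eq_or_lt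
    with h0 | h0
  · rw [← h0]
    have := H.hL
    positivity
  · obtain ⟨hW, hF⟩ := gg_pos h0
    rw [gg_eq hW hF]
    exact (H.basic ht ht1 hW hF).2.2

theorem LocData.int_gg_ge (H : LocData c e U uc L τ η) (ht : 0 < t) (ht1 : t ^ 2 ≤ 1 / 8)
    (ht2 : t * L ≤ η) :
    t ^ 2 * (L / (64 * m)) / 8 * (t ^ (m - 1) *
      (volume (cyl c e (L / (64 * m) / 4) (L / (64 * m) / 2) ((L / (64 * m)) ^ 2 / 16))).toReal) ≤
      ∫ x, gg c e U uc L τ t x := by
  set S := cyl c e (L / (64 * m) / 4) (L / (64 * m) / 2) (t ^ 2 * ((L / (64 * m)) ^ 2 / 16)) with hS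
  have hm1 : 1 ≤ m := by have := H.hm; omega
  have hvol : volume S = ENNReal.ofReal (t ^ (m - 1)) *
      volume (cyl c e (L / (64 * m) / 4) (L / (64 * m) / 2) ((L / (64 * m)) ^ 2 / 16)) :=
    volume_cyl_scale hm1 c e H.he ht _ _ _
  have hgint : Integrable (gg c e U uc L τ t) :=
    (H.locLip_gg ht ht1 ht2).continuous.integrable_of_hasCompactSupport (H.compact_gg ht ht1 ht2)
  have hSm : MeasurableSet S := (isClosed_cyl _ _ _ _ _).measurableSet
  have hSfin : volume S < ∞ := volume_cyl_lt_top _ _ _ _ _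
  have h1 : ∫ _ in S, (t ^ 2 * (L / (64 * m)) / 8) ≤ ∫ x in S, gg c e U uc L τ t x := by
    refine setIntegral_mono_on (integrableOn_const hSfin.ne) hgint.integrableOn hSm ?_
    intro x hx
    have h2 := H.inner ht hx
    have hpos : 0 < t ^ 2 * (L / (64 * m)) / 8 := by
      have := H.hL
      have hm0 : (0:ℝ) < m := by exact_mod_cast (by omega : 0 < m)
      positivity
    have hF : 0 < FF c e U uc L t x := hpos.trans_le h2
    rw [gg_eq (H.cyl_sub ht1 hx) hF]
    exact h2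
  have h2 : ∫ x in S, gg c e U uc L τ t x ≤ ∫ x, gg c e U uc L τ t x :=
    setIntegral_le_integral hgint (Eventually.of_forall gg_nonneg)
  rw [setIntegral_const, smul_eq_mul, measureReal_def, hvol, ENNReal.toReal_mul,
    ENNReal.toReal_ofReal (by positivity)] at h1
  calc _ = t ^ (m - 1) * (volume (cyl c e (L / (64 * m) / 4) (L / (64 * m) / 2)
        ((L / (64 * m)) ^ 2 / 16))).toReal * (t ^ 2 * (L / (64 * m)) / 8) := by ring
    _ ≤ _ := h1.trans h2

theorem LocData.int_rho_le (H : LocData c e U uc L τ η) (ht : 0 < t) (ht1 : t ^ 2 ≤ 1 / 8)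
    (ht2 : t * L ≤ η) {Ω : Set (Eu m)} {ρ : Eu m → ℝ} (hρ : IntegrableOn ρ Ω)
    (hWΩ : Wset c e L τ ⊆ Ω) :
    ∫ x in Ω, ρ x * gg c e U uc L τ t x ≤ t ^ 2 * L * ∫ x in Kc c e L τ η t, ‖ρ x‖ := by
  have hKm : MeasurableSet (Kc c e L τ η t) := (isClosed_cyl _ _ _ _ _).measurableSet
  have hKΩ : Kc c e L τ η t ⊆ Ω := (H.Kc_sub ht1).trans hWΩ
  have h0 : 0 ≤ t ^ 2 * L := by have := H.hL; positivity
  calc ∫ x in Ω, ρ x * gg c e U uc L τ t x
      ≤ ∫ x in Ω, (Kc c e L τ η t).indicator (fun x => t ^ 2 * L * ‖ρ x‖) x := by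
        have hgcont : Continuous (gg c e U uc L τ t) := (H.locLip_gg ht ht1 ht2).continuous
        obtain ⟨Mg, hMg⟩ := (H.compact_gg ht ht1 ht2).exists_bound_of_continuous hgcont
        have hρg : IntegrableOn (fun x => ρ x * gg c e U uc L τ t x) Ω :=
          Integrable.mul_bdd (c := Mg) hρ hgcont.aestronglyMeasurable (Eventually.of_forall hMg)
        refine integral_mono hρg ((hρ.norm.const_mul _).indicator hKm) ?_
        intro x
        by_cases hx : x ∈ Kc c e L τ η t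
        · rw [indicator_of_mem hx]
          calc ρ x * gg c e U uc L τ t x ≤ |ρ x| * gg c e U uc L τ t x := by
                gcongr
                · exact gg_nonneg x
                · exact le_abs_self _
            _ ≤ |ρ x| * (t ^ 2 * L) := by gcongr; exact H.gg_le ht ht1 x
            _ = t ^ 2 * L * ‖ρ x‖ := by rw [Real.norm_eq_abs]; ring
        · rw [indicator_of_notMem hx]
          simp only
          rw [H.gg_zero ht ht1 ht2 hx, mul_zero]
    _ = ∫ x in Kc c e L τ η t, t ^ 2 * L * ‖ρ x‖ := by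
        rw [setIntegral_indicator hKm, inter_eq_self_of_subset_right hKΩ]
    _ = t ^ 2 * L * ∫ x in Kc c e L τ η t, ‖ρ x‖ := integral_const_mul _ _

theorem LocData.contra (H : LocData c e U uc L τ η)
    {Ω : Set (Eu m)} {φ ρ u : Eu m → ℝ} (hΩ : IsOpen Ω) (hb : Bornology.IsBounded Ω)
    (hρ : IntegrableOn ρ Ω)
    (hρ' : ∀ K ⊆ Ω, IsCompact K → MemLp ρ ((m - 1 : ℕ) : ℝ≥0∞) (volume.restrict K))
    (hWΩ : Wset c e L τ ⊆ Ω) (huU : ∀ y ∈ Wset c e L τ, u y = U y)
    (hmin : IsMinimizer Ω φ ρ u) : False := by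
  have hm := H.hm
  have hm1 : 1 ≤ m := by omega
  have hm' : (2:ℝ) ≤ m := by exact_mod_cast hm
  have hm0 : (0:ℝ) < m := by linarith
  have hL := H.hL
  have hη := H.hη
  set p : ℝ≥0∞ := ((m - 1 : ℕ) : ℝ≥0∞) with hp
  have hp1 : 1 ≤ p := by
    rw [hp]; exact_mod_cast (by omega : 1 ≤ m - 1)
  have hptop : p ≠ ∞ := ENNReal.natCast_ne_top _
  -- big compact set
  set B := cyl c e 0 (L / (64 * m) + τ - η / 8) (L ^ 2 / 16) with hB
  have hBsub : B ⊆ Ω := by
    refine subset_trans ?_ hWΩ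
    rintro x ⟨hx1, hx2, hx3⟩
    change 0 ≤ zc c e x at hx1
    change zc c e x ≤ L / (64 * m) + τ - η / 8 at hx2
    change rr c e x ≤ _ at hx3
    have hl2 : 0 < L / (32 * m) := by positivity
    have h3 : 0 < L ^ 2 := by positivity
    exact ⟨by linarith, by linarith, by linarith⟩
  have hBc : IsCompact B := isCompact_cyl _ _ _ _ _
  have hmem := hρ' B hBsub hBc
  set V1 := (volume B).toReal with hV1
  have hV1fin : volume B ≠ ∞ := (volume_cyl_lt_top _ _ _ _ _).ne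
  set V0 := (volume (cyl c e (L / (64 * m) / 4) (L / (64 * m) / 2)
    ((L / (64 * m)) ^ 2 / 16))).toReal with hV0
  have hl : 0 < L / (64 * m) := by positivity
  have hV0pos : 0 < V0 := by
    apply ENNReal.toReal_pos
    · exact (volume_cyl_pos c e H.he (by linarith) (by positivity)).ne'
    · exact (volume_cyl_lt_top _ _ _ _ _).ne
  have hV1nn : 0 ≤ V1 := ENNReal.toReal_nonneg
  set κ : ℝ := 1 - 1 / ((m - 1 : ℕ) : ℝ) with hκ
  set ε : ℝ := m * (L / (64 * m)) * V0 / (16 * L ^ 2 * (V1 ^ κ + 1)) with hε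
  have hV1κ : 0 ≤ V1 ^ κ := Real.rpow_nonneg hV1nn _
  have hεpos : 0 < ε := by positivity
  obtain ⟨δ, hδ, hδ'⟩ := hmem.eLpNorm_indicator_le hp1 hptop hεpos
  set t : ℝ := min (1 / 4) (min (η / L) (δ / (V1 + 1))) with htdef
  have ht : 0 < t := by
    apply lt_min (by norm_num)
    apply lt_min (by positivity) (by positivity)
  have ht4 : t ≤ 1 / 4 := min_le_left _ _
  have ht1 : t ^ 2 ≤ 1 / 8 := by nlinarith
  have ht2 : t * L ≤ η := by
    have : t ≤ η / L := (min_le_right _ _).trans (min_le_left _ _)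
    rwa [le_div_iff₀ hL] at this
  have ht3 : t * V1 ≤ δ := by
    have h1 : t ≤ δ / (V1 + 1) := (min_le_right _ _).trans (min_le_right _ _)
    have h2 : t * (V1 + 1) ≤ δ := by rwa [le_div_iff₀ (by positivity)] at h1
    nlinarith
  -- energy
  have hadm := H.admissible ht ht1 ht2 hΩ hWΩ huU hmin.1
  have hle := hmin.2 _ hadm
  have hen := H.energy ht ht1 ht2 hΩ hb hρ hWΩ huU hmin.1
  have hg := H.int_gg_ge ht ht1 ht2
  have hr := H.int_rho_le ht ht1 ht2 hρ hWΩ
  -- Hölder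
  set K := Kc c e L τ η t with hK
  have hKm : MeasurableSet K := (isClosed_cyl _ _ _ _ _).measurableSet
  have hvolK : volume K = ENNReal.ofReal (t ^ (m - 1)) * volume B :=
    volume_cyl_scale hm1 c e H.he ht _ _ _
  have hvolK' : volume K = ENNReal.ofReal (t ^ (m - 1) * V1) := by
    rw [hvolK, ENNReal.ofReal_mul (by positivity), hV1, ENNReal.ofReal_toReal hV1fin]
  have hKB : K ⊆ B := by
    rintro x ⟨hx1, hx2, hx3⟩
    refine ⟨hx1, hx2, hx3.trans ?_⟩
    have h3 : 0 < L ^ 2 := by positivity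
    nlinarith
  have htm : t ^ (m - 1) ≤ t := by
    have h1 : t ≤ 1 := by linarith
    calc t ^ (m - 1) ≤ t ^ 1 := pow_le_pow_of_le_one ht.le h1 (by omega)
      _ = t := pow_one t
  have hμK : (volume.restrict B) K ≤ ENNReal.ofReal δ := by
    rw [Measure.restrict_apply hKm, inter_eq_self_of_subset_left hKB, hvolK']
    apply ENNReal.ofReal_le_ofReal
    calc t ^ (m - 1) * V1 ≤ t * V1 := by gcongr
      _ ≤ δ := ht3
  have hind := hδ' K hKm hμK
  rw [eLpNorm_indicator_eq_eLpNorm_restrict hKm, Measure.restrict_restrict hKm,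
    inter_eq_self_of_subset_left hKB] at hind
  have hmemK : MemLp ρ p (volume.restrict K) := hmem.mono_measure (Measure.restrict_mono hKB le_rfl)
  have hhol := eLpNorm_le_eLpNorm_mul_rpow_measure_univ hp1 hmemK.aestronglyMeasurable
  have hρK : ∫ x in K, ‖ρ x‖ ≤ ε * (t ^ (m - 1) * V1) ^ κ := by
    have h1 : ∫ x in K, ‖ρ x‖ = (eLpNorm ρ 1 (volume.restrict K)).toReal := by
      rw [integral_norm_eq_lintegral_enorm hmemK.aestronglyMeasurable, eLpNorm_one_eq_lintegral_enorm]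
    rw [h1]
    apply ENNReal.toReal_le_of_le_ofReal (by positivity)
    refine hhol.trans ?_
    rw [Measure.restrict_apply_univ, hvolK', ENNReal.ofReal_mul hεpos.le]
    have h2 : (1 / (1:ℝ≥0∞).toReal - 1 / p.toReal) = κ := by
      rw [hκ, hp, ENNReal.toReal_one, ENNReal.toReal_natCast]; norm_num
    rw [h2]
    have hκ0 : 0 ≤ κ := by
      rw [hκ]
      have h5 : (1:ℝ) ≤ ((m - 1 : ℕ) : ℝ) := by exact_mod_cast (by omega : 1 ≤ m - 1)
      have : 1 / ((m - 1 : ℕ) : ℝ) ≤ 1 := by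
        rw [div_le_one (by linarith)]; exact h5
      linarith
    rw [← ENNReal.ofReal_rpow_of_nonneg (by positivity) hκ0]
    gcongr
  have hpow : (t ^ (m - 1) * V1) ^ κ = t ^ (m - 2) * V1 ^ κ := by
    rw [Real.mul_rpow (by positivity) hV1nn]
    congr 1
    rw [← Real.rpow_natCast t (m - 1), ← Real.rpow_mul ht.le, ← Real.rpow_natCast t (m - 2)]
    congr 1
    have h5 : ((m - 1 : ℕ) : ℝ) ≠ 0 := by
      have : (1:ℝ) ≤ ((m - 1 : ℕ) : ℝ) := by exact_mod_cast (by omega : 1 ≤ m - 1)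
      linarith
    rw [hκ]
    have h6 : ((m - 2 : ℕ) : ℝ) = ((m - 1 : ℕ) : ℝ) - 1 := by
      have : m - 1 = (m - 2) + 1 := by omega
      rw [this]; push_cast; ring
    rw [h6]
    field_simp
  rw [hpow] at hρK
  -- conclusion
  have hfin : 0 ≤ -(m / (L * t)) * (∫ x, gg c e U uc L τ t x) +
      t ^ 2 * L * (ε * (t ^ (m - 2) * V1 ^ κ)) := by
    have h1 : t ^ 2 * L * ∫ x in K, ‖ρ x‖ ≤ t ^ 2 * L * (ε * (t ^ (m - 2) * V1 ^ κ)) := by gcongr
    linarith
  have hA : (m / (L * t)) * (t ^ 2 * (L / (64 * m)) / 8 * (t ^ (m - 1) * V0)) ≤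
      (m / (L * t)) * (∫ x, gg c e U uc L τ t x) := by gcongr
  obtain ⟨k, hk⟩ : ∃ k, m = k + 2 := ⟨m - 2, by omega⟩
  have hk1 : m - 1 = k + 1 := by omega
  have hk2 : m - 2 = k := by omega
  rw [hk1] at hA
  rw [hk2] at hfin
  have hA' : (m / (L * t)) * (t ^ 2 * (L / (64 * m)) / 8 * (t ^ (k + 1) * V0)) =
      t ^ (k + 2) * (m * (L / (64 * m)) * V0 / (8 * L)) := by
    field_simp
    ring
  have hB' : t ^ 2 * L * (ε * (t ^ k * V1 ^ κ)) = t ^ (k + 2) * (L * ε * V1 ^ κ) := by ring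
  rw [hA'] at hA
  rw [hB'] at hfin
  have htk : 0 < t ^ (k + 2) := by positivity
  have hcmp : t ^ (k + 2) * (m * (L / (64 * m)) * V0 / (8 * L)) ≤ t ^ (k + 2) * (L * ε * V1 ^ κ) := by
    linarith
  have hcmp2 := le_of_mul_le_mul_left hcmp htk
  have hεdef : ε * (V1 ^ κ + 1) = m * (L / (64 * m)) * V0 / (16 * L ^ 2) := by
    rw [hε]; field_simp
  have hlt : L * ε * V1 ^ κ ≤ L * (ε * (V1 ^ κ + 1)) := by
    have : 0 ≤ L * ε := by positivity
    nlinarith
  rw [hεdef] at hlt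
  have hX : 0 < m * (L / (64 * m)) * V0 := by positivity
  have h8 : L * (m * (L / (64 * m)) * V0 / (16 * L ^ 2)) = m * (L / (64 * m)) * V0 / (8 * L) / 2 := by
    field_simp; ring
  rw [h8] at hlt
  have h9 : 0 < m * (L / (64 * m)) * V0 / (8 * L) := by positivity
  linarith

end Pool.Agent.H9.BI
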