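import Pool.Agent.H9.BI.Geo

open MeasureTheory Set Metric Filter
open scoped ENNReal NNReal Topology Gradient RealInnerProductSpace

namespace Pool.Agent.H9.BI

variable {m : ℕ}

/-- `U` minus barrier -/
noncomputable def FF (c e : Eu m) (U : Eu m → ℝ) (uc L t : ℝ) (x : Eu m) : ℝ :=
  U x - (uc + psi c e L (16 * m / L) (t ^ 2) x)

noncomputable def gg (c e : Eu m) (U : Eu m → ℝ) (uc L τ t : ℝ) : Eu m → ℝ :=
  (Wset c e L τ).indicator (fun x => max (FF c e U uc L t x) 0)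

variable {c e : Eu m} {U : Eu m → ℝ} {uc L τ η t : ℝ}

theorem gg_nonneg (x : Eu m) : 0 ≤ gg c e U uc L τ t x :=
  indicator_nonneg (fun _ _ => le_max_right _ _) x

theorem gg_pos {x : Eu m} (h : 0 < gg c e U uc L τ t x) :
    x ∈ Wset c e L τ ∧ 0 < FF c e U uc L t x := by
  unfold gg at h
  by_cases hx : x ∈ Wset c e L τ
  · rw [indicator_of_mem hx] at h
    refine ⟨hx, ?_⟩
    by_contra hcon
    push Not at hcon
    rw [max_eq_right hcon] at h
    exact lt_irrefl _ h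
  · rw [indicator_of_notMem hx] at h
    exact absurd h (lt_irrefl _)

theorem gg_eq {x : Eu m} (hx : x ∈ Wset c e L τ) (hF : 0 < FF c e U uc L t x) :
    gg c e U uc L τ t x = FF c e U uc L t x := by
  unfold gg
  rw [indicator_of_mem hx, max_eq_left hF.le]

/-- compact set carrying `gg` -/
def Kc (c e : Eu m) (L τ η t : ℝ) : Set (Eu m) :=
  cyl c e 0 (L / (64 * m) + τ - η / 8) (t ^ 2 * (L ^ 2 / 16))

theorem LocData.Kc_sub (H : LocData c e U uc L τ η) (ht1 : t ^ 2 ≤ 1 / 8) :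
    Kc c e L τ η t ⊆ Wset c e L τ := by
  have hm' : (2:ℝ) ≤ m := by exact_mod_cast H.hm
  have hm0 : (0:ℝ) < m := by linarith
  have hL := H.hL
  have hη := H.hη
  have hl2 : 0 < L / (32 * m) := by positivity
  rintro x ⟨hx1, hx2, hx3⟩
  change 0 ≤ zc c e x at hx1
  change zc c e x ≤ L / (64 * m) + τ - η / 8 at hx2
  change rr c e x ≤ _ at hx3
  refine ⟨by linarith, by linarith, ?_⟩
  have h2 : t ^ 2 * (L ^ 2 / 16) ≤ 1 / 8 * (L ^ 2 / 16) := by gcongr
  have h3 : 0 < L ^ 2 := by positivity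
  linarith

theorem LocData.mem_Kc (H : LocData c e U uc L τ η) (ht : 0 < t) (ht1 : t ^ 2 ≤ 1 / 8)
    (ht2 : t * L ≤ η) {x : Eu m} (hx : x ∈ Wset c e L τ) (hF : 0 < FF c e U uc L t x) :
    x ∈ Kc c e L τ η t := by
  obtain ⟨h1, h2⟩ := H.front ht ht1 ht2 hx hF
  obtain ⟨h3, -, -⟩ := H.basic ht ht1 hx hF
  exact ⟨h3.le, h1, h2⟩

theorem LocData.gg_zero (H : LocData c e U uc L τ η) (ht : 0 < t) (ht1 : t ^ 2 ≤ 1 / 8)
    (ht2 : t * L ≤ η) {x : Eu m} (hx : x ∉ Kc c e L τ η t) : gg c e U uc L τ t x = 0 := by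
  by_contra hne
  have hpos := lt_of_le_of_ne (gg_nonneg x) (Ne.symm hne)
  obtain ⟨h1, h2⟩ := gg_pos hpos
  exact hx (H.mem_Kc ht ht1 ht2 h1 h2)

theorem LocData.locLip_FF (H : LocData c e U uc L τ η) : LocallyLipschitz (FF c e U uc L t) := by
  have h1 : LocallyLipschitz U := H.hU.locallyLipschitz
  have h2 : LocallyLipschitz (fun x => uc + psi c e L (16 * m / L) (t ^ 2) x) :=
    (contDiff_const.add (contDiff_psi c e L (16 * m / L) (t ^ 2))).locallyLipschitz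
  exact locLip_sub h1 h2

theorem LocData.locLip_gg (H : LocData c e U uc L τ η) (ht : 0 < t) (ht1 : t ^ 2 ≤ 1 / 8)
    (ht2 : t * L ≤ η) : LocallyLipschitz (gg c e U uc L τ t) := by
  unfold gg
  refine locLip_indicator (isOpen_Wset c e L τ) (isClosed_cyl _ _ _ _ _) (H.Kc_sub ht1)
    (H.locLip_FF.max_const 0) ?_
  intro x hxW hxK
  refine max_eq_right ?_
  by_contra hcon
  push Not at hcon
  exact hxK (H.mem_Kc ht ht1 ht2 hxW hcon)

theorem LocData.compact_gg (H : LocData c e U uc L τ η) (ht : 0 < t) (ht1 : t ^ 2 ≤ 1 / 8)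
    (ht2 : t * L ≤ η) : HasCompactSupport (gg c e U uc L τ t) :=
  HasCompactSupport.intro (isCompact_cyl _ _ _ _ _) (fun _ hx => H.gg_zero ht ht1 ht2 hx)

theorem LocData.gg_ev (H : LocData c e U uc L τ η) {x : Eu m} (h : 0 < gg c e U uc L τ t x) :
    ∀ᶠ y in 𝓝 x, y ∈ Wset c e L τ ∧ 0 < FF c e U uc L t y := by
  obtain ⟨h1, h2⟩ := gg_pos h
  have e1 : ∀ᶠ y in 𝓝 x, y ∈ Wset c e L τ := (isOpen_Wset c e L τ).mem_nhds h1
  have e2 : ∀ᶠ y in 𝓝 x, 0 < FF c e U uc L t y :=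
    (H.locLip_FF (t := t)).continuous.continuousAt.eventually (lt_mem_nhds h2)
  exact e1.and e2

theorem fderiv_eq_zero_of_nonneg {g : Eu m → ℝ} (h0 : ∀ x, 0 ≤ g x) {x : Eu m} (hx : g x = 0) :
    fderiv ℝ g x = 0 := by
  have : IsLocalMin g x := Eventually.of_forall fun y => by rw [hx]; exact h0 y
  exact this.fderiv_eq_zero

theorem fderiv_sub_of_zero {u g : Eu m → ℝ} (h0 : ∀ x, 0 ≤ g x) {x : Eu m} (hx : g x = 0)
    (hd : DifferentiableAt ℝ g x) : fderiv ℝ (fun y => u y - g y) x = fderiv ℝ u x := by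
  by_cases hu : DifferentiableAt ℝ u x
  · have := (hu.hasFDerivAt.sub hd.hasFDerivAt).fderiv
    rw [fderiv_eq_zero_of_nonneg h0 hx, sub_zero] at this
    exact this
  · have h2 : ¬ DifferentiableAt ℝ (fun y => u y - g y) x := by
      intro h
      apply hu
      have := h.add hd
      refine this.congr_of_eventuallyEq (Eventually.of_forall fun y => ?_)
      simp
    rw [fderiv_zero_of_not_differentiableAt hu, fderiv_zero_of_not_differentiableAt h2]

theorem norm_gradient (u : Eu m → ℝ) (x : Eu m) : ‖∇ u x‖ = ‖fderiv ℝ u x‖ := by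
  unfold gradient; simp

/-- weight times g -/
noncomputable def GG (c e : Eu m) (U : Eu m → ℝ) (uc L τ t : ℝ) (x : Eu m) : ℝ :=
  gg c e U uc L τ t x * wt (Df c e L (16 * m / L) (t ^ 2)) (t ^ 2) x

noncomputable def QQ (c e : Eu m) (L t : ℝ) (x : Eu m) : ℝ :=
  -(wt (Df c e L (16 * m / L) (t ^ 2)) (t ^ 2) x) ^ 3 / 2 *
    (4 * t ^ 2 * (16 * m / L) * (1 - t ^ 2 * (1 + 2 * (16 * m / L) * zc c e x)) ^ 2
        - 2 * (2 / L) ^ 3 * rr c e x)

theorem LocData.locLip_GG (H : LocData c e U uc L τ η) (ht : 0 < t) (ht1 : t ^ 2 ≤ 1 / 8)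
    (ht2 : t * L ≤ η) : LocallyLipschitz (GG c e U uc L τ t) :=
  locLip_mul (H.locLip_gg ht ht1 ht2)
    (locLip_wt (contDiff_Df c H.he L (16 * m / L) (t ^ 2)).locallyLipschitz (by positivity))

theorem LocData.compact_GG (H : LocData c e U uc L τ η) (ht : 0 < t) (ht1 : t ^ 2 ≤ 1 / 8)
    (ht2 : t * L ≤ η) : HasCompactSupport (GG c e U uc L τ t) :=
  (H.compact_gg ht ht1 ht2).mul_right

theorem continuous_QQ (he : ‖e‖ = 1) (ht : 0 < t) : Continuous (QQ c e L t) := by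
  unfold QQ
  have h1 : Continuous (wt (Df c e L (16 * m / L) (t ^ 2)) (t ^ 2)) :=
    continuous_wt (contDiff_Df c he L (16 * m / L) (t ^ 2)).continuous (by positivity)
  have h2 := continuous_zc c e
  have h3 := continuous_rr c e
  fun_prop

/-- pointwise energy inequality at points where `g > 0` -/
theorem LocData.point_pos (H : LocData c e U uc L τ η) (ht : 0 < t) (ht1 : t ^ 2 ≤ 1 / 8)
    {u : Eu m → ℝ} (huU : ∀ y ∈ Wset c e L τ, u y = U y) {x : Eu m}
    (hg : 0 < gg c e U uc L τ t x) (hux : ‖∇ u x‖ ≤ 1)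
    (hgd : DifferentiableAt ℝ (gg c e U uc L τ t) x) :
    ‖∇ (fun y => u y - gg c e U uc L τ t y) x‖ ≤ 1 ∧
    √(1 - ‖∇ u x‖ ^ 2) - √(1 - ‖∇ (fun y => u y - gg c e U uc L τ t y) x‖ ^ 2) ≤
      -(fderiv ℝ (GG c e U uc L τ t) x (Vf c e L (16 * m / L) (t ^ 2) x)) +
        gg c e U uc L τ t x * QQ c e L t x := by
  obtain ⟨hW, hF⟩ := gg_pos hg
  obtain ⟨hz0, hr, -⟩ := H.basic ht ht1 hW hF
  have hz1 := H.z_le hW
  obtain ⟨hD1, hD2, hD3⟩ := Df_bounds H.hm c H.he H.hL ht ht1 hz0 hz1 hr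
  set ψ := psi c e L (16 * m / L) (t ^ 2) with hψ
  set V := Vf c e L (16 * m / L) (t ^ 2) x with hV
  set g := gg c e U uc L τ t with hgdef
  have ht2 : 0 < t ^ 2 := by positivity
  -- v agrees with uc + psi near x
  have hev : (fun y => u y - g y) =ᶠ[𝓝 x] fun y => uc + ψ y := by
    filter_upwards [H.gg_ev hg] with y hy
    rw [huU y hy.1, hgdef, gg_eq hy.1 hy.2]
    unfold FF; ring
  have hψd : HasFDerivAt (fun y => uc + ψ y) (innerSL ℝ V) x :=
    (hasFDerivAt_psi c e L (16 * m / L) (t ^ 2) x).const_add uc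
  have hvd : HasFDerivAt (fun y => u y - g y) (innerSL ℝ V) x := hψd.congr_of_eventuallyEq hev
  have hvg : ∇ (fun y => u y - g y) x = V := by
    have : HasGradientAt (fun y => u y - g y) V x := by
      rw [hasGradientAt_iff_hasFDerivAt]; exact hvd
    exact this.gradient
  have hDV : 1 - ‖V‖ ^ 2 = Df c e L (16 * m / L) (t ^ 2) x := rfl
  -- derivative of g
  have hud : HasFDerivAt u (innerSL ℝ V + fderiv ℝ g x) x := by
    have := hvd.add hgd.hasFDerivAt
    refine this.congr_of_eventuallyEq (Eventually.of_forall fun y => ?_)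
    simp
  have hugrad : fderiv ℝ g x V = ⟪∇ u x - V, V⟫ := by
    have h1 : fderiv ℝ u x = innerSL ℝ V + fderiv ℝ g x := hud.fderiv
    have h2 : ⟪∇ u x, V⟫ = fderiv ℝ u x V := by
      unfold gradient
      rw [InnerProductSpace.toDual_symm_apply]
    rw [inner_sub_left, h2, h1]
    simp
  have hDpos : 0 < 1 - ‖V‖ ^ 2 := by rw [hDV]; linarith
  have hVle : ‖V‖ ≤ 1 := by
    by_contra h
    push Not at h
    nlinarith
  rw [hvg]
  refine ⟨hVle, ?_⟩
  have h1 := tangent_ineq hux hDpos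
  rw [← hugrad, hDV] at h1
  rw [hDV]
  refine h1.trans (le_of_eq ?_)
  have hwd := hasFDerivAt_wt (a := t ^ 2) ht2 (contDiff_Df c H.he L (16 * m / L)
    (t ^ 2)).differentiable_one.differentiableAt.hasFDerivAt hD1
  have hGd := (hgd.hasFDerivAt.mul hwd).fderiv
  have hGG : fderiv ℝ (GG c e U uc L τ t) x = fderiv ℝ (g *
      wt (Df c e L (16 * m / L) (t ^ 2)) (t ^ 2)) x := rfl
  rw [hGG, hGd]
  simp only [add_apply, smul_apply, smul_eq_mul]
  rw [fderiv_Df_Vf c H.he]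
  unfold QQ
  rw [wt_eq hD1.le]
  ring

theorem point_zero {u : Eu m → ℝ} {x : Eu m}
    (hg : gg c e U uc L τ t x = 0) (ht : 0 < t)
    (hgd : DifferentiableAt ℝ (gg c e U uc L τ t) x) :
    ∇ (fun y => u y - gg c e U uc L τ t y) x = ∇ u x ∧
      -(fderiv ℝ (GG c e U uc L τ t) x (Vf c e L (16 * m / L) (t ^ 2) x)) +
        gg c e U uc L τ t x * QQ c e L t x = 0 := by
  constructor
  · unfold gradient
    rw [fderiv_sub_of_zero gg_nonneg hg hgd]
  · have h0 : ∀ y, 0 ≤ GG c e U uc L τ t y := fun y =>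
      mul_nonneg (gg_nonneg y) (wt_pos (by positivity) y).le
    have h1 : GG c e U uc L τ t x = 0 := by unfold GG; rw [hg, zero_mul]
    rw [fderiv_eq_zero_of_nonneg h0 h1, hg]
    simp

end Pool.Agent.H9.BI
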