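import Mathlib

open MeasureTheory Set Metric
open scoped ENNReal NNReal Topology Gradient

namespace Pool.Agent.H9.BI

/-- The Euclidean space `ℝ^m`. -/
abbrev Eu (m : ℕ) := EuclideanSpace ℝ (Fin m)

/-- Euclidean length of the polygonal path with the given list of successive vertices. -/
noncomputable def polyLength {m : ℕ} : List (Eu m) → ℝ
  | [] => 0
  | [_] => 0
  | p :: q :: l => dist p q + polyLength (q :: l)

/-- `l = [p₁, …, p_k]` is the list of interior vertices of a piecewise affine path from `x` to `y`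
that runs in `Ω` except possibly at its two end points `x`, `y`. -/
def IsPolyPath {m : ℕ} (Ω : Set (Eu m)) (x y : Eu m) (l : List (Eu m)) : Prop :=
  (∀ p ∈ l, p ∈ Ω) ∧ List.IsChain (fun p q => openSegment ℝ p q ⊆ Ω) (x :: (l ++ [y]))

/-- The intrinsic distance: the infimum (in `[0, ∞]`) of the lengths of the piecewise affine paths
from `x` to `y` that run in `Ω` except possibly at their end points. -/
noncomputable def pathDist {m : ℕ} (Ω : Set (Eu m)) (x y : Eu m) : ℝ≥0∞ :=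
  ⨅ (l : List (Eu m)) (_ : IsPolyPath Ω x y l), ENNReal.ofReal (polyLength (x :: (l ++ [y])))

/-- The class `S(∂Ω)` of strictly spacelike boundary data. -/
def SpacelikeData {m : ℕ} (Ω : Set (Eu m)) (φ : Eu m → ℝ) : Prop :=
  ContinuousOn φ (frontier Ω) ∧
    ∀ x ∈ frontier Ω, ∀ y ∈ frontier Ω, x ≠ y → ENNReal.ofReal |φ x - φ y| < pathDist Ω x y

/-- The class `Y_φ(Ω)`: continuous on the closure of `Ω`, equal to `φ` on the boundary, locally
Lipschitz in `Ω` with almost everywhere defined gradient of norm at most one. -/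
structure Admissible {m : ℕ} (Ω : Set (Eu m)) (φ v : Eu m → ℝ) : Prop where
  cont : ContinuousOn v (closure Ω)
  bdry : ∀ x ∈ frontier Ω, v x = φ x
  lip : LocallyLipschitzOn Ω v
  grad : ∀ᵐ x ∂(volume.restrict Ω), ‖∇ v x‖ ≤ 1

/-- The Born-Infeld action `I_ρ`. -/
noncomputable def action {m : ℕ} (Ω : Set (Eu m)) (ρ v : Eu m → ℝ) : ℝ :=
  (∫ x in Ω, (1 - √(1 - ‖∇ v x‖ ^ 2))) - ∫ x in Ω, ρ x * v x

/-- `u` minimises `I_ρ` over `Y_φ(Ω)`. -/
def IsMinimizer {m : ℕ} (Ω : Set (Eu m)) (φ ρ u : Eu m → ℝ) : Prop :=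
  Admissible Ω φ u ∧ ∀ v, Admissible Ω φ v → action Ω ρ u ≤ action Ω ρ v

/-- `u` has a light segment in `Ω`. -/
def HasLightSegment {m : ℕ} (Ω : Set (Eu m)) (u : Eu m → ℝ) : Prop :=
  ∃ x y : Eu m, x ≠ y ∧ segment ℝ x y ⊆ Ω ∧ |u x - u y| = dist x y

end Pool.Agent.H9.BI
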