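import Pool.Agent.H9.BI.Core

open MeasureTheory Set Metric Filter
open scoped ENNReal NNReal Topology Gradient RealInnerProductSpace

namespace Pool.Agent.H9.BI

variable {m : ℕ}
variable {c e : Eu m} {U : Eu m → ℝ} {uc L τ η t : ℝ}

theorem LocData.ae_gg (H : LocData c e U uc L τ η) (ht : 0 < t) (ht1 : t ^ 2 ≤ 1 / 8)
    (ht2 : t * L ≤ η) : ∀ᵐ x : Eu m, DifferentiableAt ℝ (gg c e U uc L τ t) x := by
  obtain ⟨C, hC⟩ := lipschitz_of_compact (H.locLip_gg ht ht1 ht2) (H.compact_gg ht ht1 ht2)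
  exact hC.ae_differentiableAt

theorem LocData.admissible (H : LocData c e U uc L τ η) (ht : 0 < t) (ht1 : t ^ 2 ≤ 1 / 8)
    (ht2 : t * L ≤ η) {Ω : Set (Eu m)} {φ u : Eu m → ℝ} (hΩ : IsOpen Ω)
    (hWΩ : Wset c e L τ ⊆ Ω) (huU : ∀ y ∈ Wset c e L τ, u y = U y) (hu : Admissible Ω φ u) :
    Admissible Ω φ (fun y => u y - gg c e U uc L τ t y) := by
  refine ⟨?_, ?_, ?_, ?_⟩
  · exact hu.cont.sub (H.locLip_gg ht ht1 ht2).continuous.continuousOn
  · intro x hx
    have hxΩ : x ∉ Ω := by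
      rw [hΩ.frontier_eq] at hx; exact hx.2
    have : gg c e U uc L τ t x = 0 := by
      unfold gg; exact indicator_of_notMem (fun h => hxΩ (hWΩ h)) _
    simp only [this, sub_zero]
    exact hu.bdry x hx
  · exact hu.lip.sub ((H.locLip_gg ht ht1 ht2).locallyLipschitzOn)
  · have h1 := ae_restrict_of_ae (s := Ω) (H.ae_gg ht ht1 ht2)
    filter_upwards [hu.grad, h1] with x hx hgd
    rcases (gg_nonneg (c := c) (e := e) (U := U) (uc := uc) (L := L) (τ := τ) (t := t) x).eq_or_lt
      with h0 | h0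
    · rw [(point_zero h0.symm ht hgd).1]; exact hx
    · exact (H.point_pos ht ht1 huU h0 hx hgd).1

theorem integrable_F {Ω : Set (Eu m)} (hΩ : volume Ω ≠ ∞) (v : Eu m → ℝ) :
    IntegrableOn (fun x => √(1 - ‖∇ v x‖ ^ 2)) Ω := by
  have hm : Measurable (fun x => √(1 - ‖∇ v x‖ ^ 2)) := by
    simp only [norm_gradient]
    have := measurable_fderiv ℝ v
    fun_prop
  refine Measure.integrableOn_of_bounded (M := 1) hΩ hm.aestronglyMeasurable ?_
  refine Eventually.of_forall fun x => ?_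
  rw [Real.norm_eq_abs, abs_of_nonneg (Real.sqrt_nonneg _)]
  have := sq_nonneg ‖∇ v x‖
  rw [Real.sqrt_le_left (by norm_num)]
  linarith

theorem LocData.tsupport_GG (H : LocData c e U uc L τ η) (ht : 0 < t) (ht1 : t ^ 2 ≤ 1 / 8)
    (ht2 : t * L ≤ η) : tsupport (GG c e U uc L τ t) ⊆ Kc c e L τ η t := by
  refine closure_minimal (fun x hx => ?_) (isClosed_cyl _ _ _ _ _)
  by_contra hxK
  apply hx
  unfold GG
  rw [H.gg_zero ht ht1 ht2 hxK, zero_mul]

theorem LocData.energy (H : LocData c e U uc L τ η) (ht : 0 < t) (ht1 : t ^ 2 ≤ 1 / 8)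
    (ht2 : t * L ≤ η) {Ω : Set (Eu m)} {φ ρ u : Eu m → ℝ} (hΩ : IsOpen Ω)
    (hb : Bornology.IsBounded Ω) (hρ : IntegrableOn ρ Ω)
    (hWΩ : Wset c e L τ ⊆ Ω) (huU : ∀ y ∈ Wset c e L τ, u y = U y) (hu : Admissible Ω φ u) :
    action Ω ρ (fun y => u y - gg c e U uc L τ t y) - action Ω ρ u ≤
      -(m / (L * t)) * (∫ x, gg c e U uc L τ t x) + ∫ x in Ω, ρ x * gg c e U uc L τ t x := by
  have hvol : volume Ω ≠ ∞ := hb.measure_lt_top.ne
  set g := gg c e U uc L τ t with hgdef
  set v : Eu m → ℝ := fun y => u y - g y with hv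
  have hglip := H.locLip_gg ht ht1 ht2
  have hgc := H.compact_gg ht ht1 ht2
  have hgcont : Continuous g := hglip.continuous
  obtain ⟨Mg, hMg⟩ := hgc.exists_bound_of_continuous hgcont
  have hρg : IntegrableOn (fun x => ρ x * g x) Ω := by
    refine Integrable.mul_bdd (c := Mg) hρ hgcont.aestronglyMeasurable (Eventually.of_forall hMg)
  have hcl : IsCompact (closure Ω) := hb.isCompact_closure
  obtain ⟨Mu, hMu⟩ := hcl.exists_bound_of_continuousOn hu.cont
  have hρu : IntegrableOn (fun x => ρ x * u x) Ω := by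
    refine Integrable.mul_bdd (c := Mu) hρ ?_ ?_
    · exact (hu.cont.mono subset_closure).aestronglyMeasurable hΩ.measurableSet
    · filter_upwards [ae_restrict_mem hΩ.measurableSet] with x hx
      exact hMu x (subset_closure hx)
  have hρv : ∫ x in Ω, ρ x * v x = (∫ x in Ω, ρ x * u x) - ∫ x in Ω, ρ x * g x := by
    rw [← integral_sub hρu hρg]
    refine integral_congr_ae (Eventually.of_forall fun x => ?_)
    simp only [hv]; ring
  have hFu := integrable_F hvol u
  have hFv := integrable_F hvol v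
  have h1i : IntegrableOn (fun _ : Eu m => (1:ℝ)) Ω := integrableOn_const hvol
  have hdiff : action Ω ρ v - action Ω ρ u =
      (∫ x in Ω, (√(1 - ‖∇ u x‖ ^ 2) - √(1 - ‖∇ v x‖ ^ 2))) + ∫ x in Ω, ρ x * g x := by
    unfold action
    rw [hρv, integral_sub h1i hFu, integral_sub h1i hFv, integral_sub hFu hFv]
    ring
  rw [hdiff]
  -- the right hand side
  obtain ⟨C, hC⟩ := lipschitz_of_compact (H.locLip_GG ht ht1 ht2) (H.compact_GG ht ht1 ht2)
  have hGc := H.compact_GG ht ht1 ht2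
  set G := GG c e U uc L τ t with hG
  set R : Eu m → ℝ := fun x => -(fderiv ℝ G x (Vf c e L (16 * m / L) (t ^ 2) x)) +
    g x * QQ c e L t x with hR
  have hR1 : Integrable (fun x => fderiv ℝ G x (Vf c e L (16 * m / L) (t ^ 2) x)) := by
    unfold Vf
    exact integrable_fderiv_V hC hGc c e (2 / L) _ _
  have hQc : Continuous (QQ c e L t) := continuous_QQ H.he ht
  have hR2 : Integrable (fun x => g x * QQ c e L t x) :=
    (hgcont.mul hQc).integrable_of_hasCompactSupport hgc.mul_right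
  have hRi : Integrable R := hR1.neg.add hR2
  have hle : ∫ x in Ω, (√(1 - ‖∇ u x‖ ^ 2) - √(1 - ‖∇ v x‖ ^ 2)) ≤ ∫ x in Ω, R x := by
    refine setIntegral_mono_ae_restrict (hFu.sub hFv) hRi.integrableOn ?_
    have h1 := ae_restrict_of_ae (s := Ω) (H.ae_gg ht ht1 ht2)
    filter_upwards [hu.grad, h1] with x hx hgd
    rcases (gg_nonneg (c := c) (e := e) (U := U) (uc := uc) (L := L) (τ := τ) (t := t) x).eq_or_lt
      with h0 | h0
    · obtain ⟨e1, e2⟩ := point_zero (u := u) h0.symm ht hgd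
      have e1' : ∇ v x = ∇ u x := e1
      have e2' : R x = 0 := e2
      simp only [e1', e2', sub_self, le_refl]
    · exact (H.point_pos ht ht1 huU h0 hx hgd).2
  have hKΩ : Kc c e L τ η t ⊆ Ω := (H.Kc_sub ht1).trans hWΩ
  have hRΩ : ∫ x in Ω, R x = ∫ x, R x := by
    apply setIntegral_eq_integral_of_forall_compl_eq_zero
    intro x hx
    have hxK : x ∉ Kc c e L τ η t := fun h => hx (hKΩ h)
    have hg0 : g x = 0 := H.gg_zero ht ht1 ht2 hxK
    have hG0 : fderiv ℝ G x = 0 := by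
      by_contra hne
      exact hxK (H.tsupport_GG ht ht1 ht2 (support_fderiv_subset ℝ hne))
    simp only [hR, hg0, hG0]
    simp
  have hibp := ibp hC hGc c e H.he (2 / L) (1 - t ^ 2) (-(2 * t ^ 2 * (16 * m / L)) - 2 / L)
  have hRint : ∫ x, R x = ∫ x, (G x * (2 / L * m + (-(2 * t ^ 2 * (16 * m / L)) - 2 / L)) +
      g x * QQ c e L t x) := by
    have hGi : Integrable (fun x => G x * (2 / L * m + (-(2 * t ^ 2 * (16 * m / L)) - 2 / L))) :=
      (hC.continuous.integrable_of_hasCompactSupport hGc).mul_const _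
    rw [integral_add hGi hR2, integral_mul_const]
    have : ∫ x, R x = (∫ x, -(fderiv ℝ G x (Vf c e L (16 * m / L) (t ^ 2) x))) +
        ∫ x, g x * QQ c e L t x := integral_add hR1.neg hR2
    rw [this, integral_neg]
    have h2 : ∫ x, fderiv ℝ G x (Vf c e L (16 * m / L) (t ^ 2) x) =
        -(2 / L * m + (-(2 * t ^ 2 * (16 * m / L)) - 2 / L)) * ∫ x, G x := hibp
    rw [h2]
    ring
  have hfinal : ∫ x, (G x * (2 / L * m + (-(2 * t ^ 2 * (16 * m / L)) - 2 / L)) +
      g x * QQ c e L t x) ≤ ∫ x, -(m / (L * t)) * g x := by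
    have hGi : Integrable (fun x => G x * (2 / L * m + (-(2 * t ^ 2 * (16 * m / L)) - 2 / L))) :=
      (hC.continuous.integrable_of_hasCompactSupport hGc).mul_const _
    refine integral_mono (hGi.add hR2)
      ((hgcont.integrable_of_hasCompactSupport hgc).const_mul _) ?_
    intro x
    rcases (gg_nonneg (c := c) (e := e) (U := U) (uc := uc) (L := L) (τ := τ) (t := t) x).eq_or_lt
      with h0 | h0
    · have hg0 : g x = 0 := h0.symm
      have hG0 : G x = 0 := by
        simp only [hG, GG]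
        rw [← hgdef, hg0, zero_mul]
      simp only [hg0, hG0]
      simp
    · obtain ⟨hW, hF⟩ := gg_pos h0
      obtain ⟨hz0, hr, -⟩ := H.basic ht ht1 hW hF
      have hz1 := H.z_le hW
      obtain ⟨hD1, hD2, hD3⟩ := Df_bounds H.hm c H.he H.hL ht ht1 hz0 hz1 hr
      have hcur := curvature H.hm c H.he H.hL ht ht1 hz0 hz1 hr
      simp only at hcur
      have hGx : G x = g x * (√(Df c e L (16 * m / L) (t ^ 2) x))⁻¹ := by
        simp only [hG, GG]
        rw [wt_eq hD1.le]
      have hQx : QQ c e L t x = -((√(Df c e L (16 * m / L) (t ^ 2) x))⁻¹ ^ 3 / 2 *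
          (4 * t ^ 2 * (16 * m / L) * (1 - t ^ 2 * (1 + 2 * (16 * m / L) * zc c e x)) ^ 2
            - 2 * (2 / L) ^ 3 * rr c e x)) := by
        unfold QQ
        rw [wt_eq hD1.le]
        ring
      have hg0 : 0 ≤ g x := h0.le
      have := mul_le_mul_of_nonneg_left hcur hg0
      simp only
      rw [hGx, hQx]
      linarith
  rw [integral_const_mul] at hfinal
  linarith

end Pool.Agent.H9.BI
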