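import Pool.Agent.H9.BI.Contra

open MeasureTheory Set Metric Filter
open scoped ENNReal NNReal Topology Gradient RealInnerProductSpace

namespace Pool.Agent.H9.BI

variable {m : ℕ}

theorem gradient_neg' (v : Eu m → ℝ) (x : Eu m) : ‖∇ (fun y => -v y) x‖ = ‖∇ v x‖ := by
  rw [norm_gradient, norm_gradient, fderiv_fun_neg, norm_neg]

theorem Admissible.neg {Ω : Set (Eu m)} {φ v : Eu m → ℝ} (h : Admissible Ω φ v) :
    Admissible Ω (fun x => -φ x) (fun x => -v x) := by
  refine ⟨h.cont.neg, fun x hx => by rw [h.bdry x hx], h.lip.neg, ?_⟩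
  filter_upwards [h.grad] with x hx
  rw [gradient_neg']; exact hx

theorem action_neg {Ω : Set (Eu m)} {ρ v : Eu m → ℝ} :
    action Ω (fun x => -ρ x) (fun x => -v x) = action Ω ρ v := by
  unfold action
  simp only [gradient_neg', neg_mul_neg]

theorem IsMinimizer.neg {Ω : Set (Eu m)} {φ ρ u : Eu m → ℝ} (h : IsMinimizer Ω φ ρ u) :
    IsMinimizer Ω (fun x => -φ x) (fun x => -ρ x) (fun x => -u x) := by
  refine ⟨h.1.neg, fun v hv => ?_⟩
  rw [action_neg]
  have h1 : Admissible Ω φ (fun x => -v x) := by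
    have := hv.neg
    simpa using this
  have h2 := h.2 _ h1
  have h3 : action Ω ρ (fun x => -v x) = action Ω (fun x => -ρ x) v := by
    have := action_neg (Ω := Ω) (ρ := fun x => -ρ x) (v := v)
    simpa using this
  rw [← h3]; exact h2

/-- there is no interior end point of a light segment -/
theorem no_interior_end (hm : 2 ≤ m) {Ω : Set (Eu m)} (hΩ : IsOpen Ω)
    (hb : Bornology.IsBounded Ω) {φ ρ u : Eu m → ℝ} (hρ : IntegrableOn ρ Ω)
    (hρ' : ∀ K ⊆ Ω, IsCompact K → MemLp ρ ((m - 1 : ℕ) : ℝ≥0∞) (volume.restrict K))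
    (hmin : IsMinimizer Ω φ ρ u) {b e : Eu m} (he : ‖e‖ = 1) (hbΩ : b ∈ Ω) {d : ℝ} (hd : 0 < d)
    (hback : ∀ s ∈ Icc (0:ℝ) d, u (b + (-s) • e) = u b - s)
    (hfront : ∀ τ : ℝ, 0 < τ → (∀ s ∈ Icc (0:ℝ) τ, b + s • e ∈ Ω) → u (b + τ • e) < u b + τ) :
    False := by
  have hm' : (2:ℝ) ≤ m := by exact_mod_cast hm
  have hm0 : (0:ℝ) < m := by linarith
  obtain ⟨R, hR, hRΩ⟩ := Metric.isOpen_iff.1 hΩ b hbΩ
  have hlip : LipschitzOnWith 1 u (ball b R) := by
    refine LipschitzOnWith.of_dist_le_mul fun x hx y hy => ?_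
    have hseg : segment ℝ y x ⊆ Ω := ((convex_ball b R).segment_subset hy hx).trans hRΩ
    have := lip_segment hΩ hmin.1.lip hmin.1.grad hseg
    rw [Real.dist_eq, dist_eq_norm]
    simpa using this
  obtain ⟨U, hU, hUu⟩ := hlip.extend_real
  set L := min (R / 4) (d / 2) with hL
  have hLpos : 0 < L := lt_min (by positivity) (by positivity)
  have hLR : L ≤ R / 4 := min_le_left _ _
  have hLd : L ≤ d / 2 := min_le_right _ _
  set l := L / (64 * m) with hl
  have hlpos : 0 < l := by positivity
  have hlL : l ≤ L / 128 := by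
    rw [hl]
    calc L / (64 * m) ≤ L / (64 * 2) := by gcongr
      _ = L / 128 := by norm_num
  have hmemball : ∀ s : ℝ, |s| < R → b + s • e ∈ ball b R := by
    intro s hs
    rw [mem_ball, dist_eq_norm, add_sub_cancel_left, norm_smul, he, mul_one]
    exact hs
  set η := u b + l - u (b + l • e) with hη
  have hηpos : 0 < η := by
    have := hfront l hlpos (fun s hs => hRΩ (hmemball s (by
      rw [abs_of_nonneg hs.1]; linarith [hs.2])))
    linarith
  have hH : LocData (b + (-l) • e) e U (u b - l) L l η := by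
    refine ⟨hm, he, hLpos, hlpos, le_rfl, hηpos, hU, ?_, ?_, ?_⟩
    · have h1 : b + (-l) • e + (-L) • e = b + (-(l + L)) • e := by
        rw [add_assoc, ← add_smul]; congr 2; ring
      rw [h1, ← hUu (hmemball _ (by rw [abs_neg, abs_of_nonneg (by positivity)]; linarith)),
        hback (l + L) ⟨by positivity, by linarith⟩]
      ring
    · have h1 : b + (-l) • e + (L / (64 * m)) • e = b := by
        rw [add_assoc, ← add_smul, ← hl]; simp
      rw [h1, ← hUu (mem_ball_self hR)]
      linarith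
    · have h1 : b + (-l) • e + (L / (64 * m) + l) • e = b + l • e := by
        rw [add_assoc, ← add_smul, ← hl]; congr 2; ring
      rw [h1, ← hUu (hmemball _ (by rw [abs_of_nonneg hlpos.le]; linarith))]
      rw [hη, ← hl]
      linarith
  have hW : Wset (b + (-l) • e) e L l ⊆ ball b R := by
    rintro x ⟨h1, h2, h3⟩
    have h4 := norm_sub_axis (b + (-l) • e) he x l
    have h5 : b + (-l) • e + l • e = b := by
      rw [add_assoc, ← add_smul]; simp
    rw [h5] at h4
    rw [mem_ball, dist_eq_norm]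
    have h6 : L / (32 * m) = 2 * l := by rw [hl]; field_simp; norm_num
    rw [h6] at h1
    rw [← hl] at h2
    have h7 : (zc (b + (-l) • e) e x - l) ^ 2 ≤ L ^ 2 := by
      apply sq_le_sq'
      · linarith
      · linarith
    have h8 : ‖x - b‖ ^ 2 < (2 * L) ^ 2 := by nlinarith
    have h9 : ‖x - b‖ < 2 * L := lt_of_pow_lt_pow_left₀ 2 (by positivity) h8
    linarith
  exact hH.contra hΩ hb hρ hρ' (hW.trans hRΩ) (fun y hy => hUu (hW hy)) hmin

/-- maximal extension of a light segment in one direction -/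
theorem exists_end {Ω : Set (Eu m)} (hΩ : IsOpen Ω)
    (hb : Bornology.IsBounded Ω) {u : Eu m → ℝ} (hu : ContinuousOn u (closure Ω))
    (hlip : ∀ x y : Eu m, segment ℝ x y ⊆ Ω → |u y - u x| ≤ ‖y - x‖)
    {x e : Eu m} (he : ‖e‖ = 1) (hx : x ∈ Ω) :
    ∃ T : ℝ, 0 ≤ T ∧ (∀ s ∈ Ico (0:ℝ) T, x + s • e ∈ Ω) ∧
      (∀ s ∈ Icc (0:ℝ) T, u (x + s • e) = u x + s) ∧
      (∀ s : ℝ, 0 ≤ s → (∀ r ∈ Icc (0:ℝ) s, x + r • e ∈ Ω ∧ u (x + r • e) = u x + r) → s ≤ T) ∧
      (x + T • e ∈ frontier Ω ∨ (x + T • e ∈ Ω ∧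
        ∀ τ : ℝ, 0 < τ → (∀ s ∈ Icc (0:ℝ) τ, x + T • e + s • e ∈ Ω) →
          u (x + T • e + τ • e) < u (x + T • e) + τ)) := by
  set S : Set ℝ := {s | 0 ≤ s ∧ ∀ r ∈ Icc (0:ℝ) s, x + r • e ∈ Ω ∧ u (x + r • e) = u x + r} with hS
  have h0S : (0:ℝ) ∈ S := by
    refine ⟨le_rfl, fun r hr => ?_⟩
    have : r = 0 := le_antisymm hr.2 hr.1
    subst this
    simpa using hx
  have hSb : BddAbove S := by
    obtain ⟨M, hM⟩ := hb.subset_closedBall x
    refine ⟨M, fun s hs => ?_⟩
    have h1 := hM (hs.2 s ⟨hs.1, le_rfl⟩).1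
    rw [mem_closedBall, dist_eq_norm, add_sub_cancel_left, norm_smul, he, mul_one,
      Real.norm_eq_abs] at h1
    exact (le_abs_self s).trans h1
  set T := sSup S with hT
  have hT0 : 0 ≤ T := le_csSup hSb h0S
  have hlt : ∀ s ∈ Ico (0:ℝ) T, x + s • e ∈ Ω ∧ u (x + s • e) = u x + s := by
    intro s hs
    obtain ⟨s', hs', hss'⟩ := exists_lt_of_lt_csSup ⟨0, h0S⟩ hs.2
    exact hs'.2 s ⟨hs.1, hss'.le⟩
  have hclos : x + T • e ∈ closure Ω := by
    rcases hT0.eq_or_lt with h | h
    · rw [← h]; simpa using subset_closure hx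
    · have htend : Tendsto (fun s : ℝ => x + s • e) (𝓝[<] T) (𝓝 (x + T • e)) := by
        have : Continuous (fun s : ℝ => x + s • e) := by fun_prop
        exact this.continuousAt.tendsto.mono_left nhdsWithin_le_nhds
      refine mem_closure_of_tendsto htend ?_
      filter_upwards [Ico_mem_nhdsLT h] with s hs
      exact (hlt s hs).1
  have huT : u (x + T • e) = u x + T := by
    rcases hT0.eq_or_lt with h | h
    · rw [← h]; simp
    · have htend : Tendsto (fun s : ℝ => x + s • e) (𝓝[<] T) (𝓝[closure Ω] (x + T • e)) := by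
        refine tendsto_nhdsWithin_iff.2 ⟨?_, ?_⟩
        · have : Continuous (fun s : ℝ => x + s • e) := by fun_prop
          exact this.continuousAt.tendsto.mono_left nhdsWithin_le_nhds
        · filter_upwards [Ico_mem_nhdsLT h] with s hs
          exact subset_closure (hlt s hs).1
      have h1 : Tendsto (fun s : ℝ => u (x + s • e)) (𝓝[<] T) (𝓝 (u (x + T • e))) :=
        (hu _ hclos).tendsto.comp htend
      have h2 : Tendsto (fun s : ℝ => u (x + s • e)) (𝓝[<] T) (𝓝 (u x + T)) := by
        have h3 : Tendsto (fun s : ℝ => u x + s) (𝓝[<] T) (𝓝 (u x + T)) := by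
          have : Continuous (fun s : ℝ => u x + s) := by fun_prop
          exact this.continuousAt.tendsto.mono_left nhdsWithin_le_nhds
        refine h3.congr' ?_
        filter_upwards [Ico_mem_nhdsLT h] with s hs
        exact (hlt s hs).2.symm
      exact tendsto_nhds_unique h1 h2
  refine ⟨T, hT0, fun s hs => (hlt s hs).1, ?_, ?_, ?_⟩
  · intro s hs
    rcases hs.2.eq_or_lt with h | h
    · rw [h]; exact huT
    · exact (hlt s ⟨hs.1, h⟩).2
  · intro s hs hsS
    exact le_csSup hSb ⟨hs, hsS⟩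
  · by_cases hbΩ : x + T • e ∈ Ω
    · right
      refine ⟨hbΩ, fun τ hτ hseg => ?_⟩
      by_contra hcon
      push Not at hcon
      -- then T + τ ∈ S
      have hline : ∀ r ∈ Icc (0:ℝ) τ, u (x + T • e + r • e) = u (x + T • e) + r := by
        intro r hr
        have hseg1 : segment ℝ (x + T • e) (x + T • e + r • e) ⊆ Ω := by
          rw [segment_eq_image_lineMap]
          rintro _ ⟨q, hq, rfl⟩
          rw [AffineMap.lineMap_apply, vsub_eq_sub, vadd_eq_add, add_sub_cancel_left, smul_smul,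
            add_comm]
          exact hseg _ ⟨mul_nonneg hq.1 hr.1, (mul_le_of_le_one_left hr.1 hq.2).trans hr.2⟩
        have hseg2 : segment ℝ (x + T • e + r • e) (x + T • e + τ • e) ⊆ Ω := by
          rw [segment_eq_image_lineMap]
          rintro _ ⟨q, hq, rfl⟩
          rw [AffineMap.lineMap_apply, vsub_eq_sub, vadd_eq_add]
          have : q • (x + T • e + τ • e - (x + T • e + r • e)) + (x + T • e + r • e) =
              x + T • e + (r + q * (τ - r)) • e := by
            rw [add_sub_add_left_eq_sub, ← sub_smul, smul_smul, add_smul]; abel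
          rw [this]
          refine hseg _ ⟨?_, ?_⟩
          · exact add_nonneg hr.1 (mul_nonneg hq.1 (by linarith [hr.2]))
          · nlinarith [hq.2, hr.2]
        have h1 := hlip _ _ hseg1
        have h2 := hlip _ _ hseg2
        rw [add_sub_cancel_left, norm_smul, he, mul_one, Real.norm_eq_abs, abs_of_nonneg hr.1] at h1
        have h3 : x + T • e + τ • e - (x + T • e + r • e) = (τ - r) • e := by
          rw [add_sub_add_left_eq_sub, ← sub_smul]
        have hr3 : |τ - r| = τ - r := abs_of_nonneg (by linarith [hr.2])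
        rw [h3, norm_smul, he, mul_one, Real.norm_eq_abs, hr3] at h2
        have h4 := (abs_le.1 h1).2
        have h5 := (abs_le.1 h2).2
        linarith
      have hTτ : T + τ ∈ S := by
        refine ⟨by linarith, fun r hr => ?_⟩
        rcases lt_or_ge r T with h | h
        · exact hlt r ⟨hr.1, h⟩
        · have h1 : x + r • e = x + T • e + (r - T) • e := by
            rw [add_assoc, ← add_smul]; congr 2; ring
          have hr' : r - T ∈ Icc (0:ℝ) τ := ⟨by linarith, by linarith [hr.2]⟩
          rw [h1]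
          refine ⟨hseg _ hr', ?_⟩
          rw [hline _ hr', huT]; ring
      have := le_csSup hSb hTτ
      linarith
    · left
      rw [hΩ.frontier_eq]
      exact ⟨hclos, hbΩ⟩

theorem pathDist_le {Ω : Set (Eu m)} {a b : Eu m} (h : openSegment ℝ a b ⊆ Ω) :
    pathDist Ω a b ≤ ENNReal.ofReal (dist a b) := by
  unfold pathDist
  refine iInf₂_le_of_le [] ⟨by simp, by simpa using h⟩ ?_
  simp [polyLength]

theorem no_light_segment (hm : 2 ≤ m) {Ω : Set (Eu m)} (hΩ : IsOpen Ω)
    (hb : Bornology.IsBounded Ω) {φ ρ u : Eu m → ℝ} (hφ : SpacelikeData Ω φ)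
    (hρ : IntegrableOn ρ Ω)
    (hρ' : ∀ K ⊆ Ω, IsCompact K → MemLp ρ ((m - 1 : ℕ) : ℝ≥0∞) (volume.restrict K))
    (hmin : IsMinimizer Ω φ ρ u) : ¬ HasLightSegment Ω u := by
  rintro ⟨x', y', hne', hseg', habs⟩
  -- orient the segment
  obtain ⟨x, y, hne, hseg, hxy⟩ : ∃ x y : Eu m, x ≠ y ∧ segment ℝ x y ⊆ Ω ∧
      u y - u x = ‖y - x‖ := by
    rcases le_total (u x') (u y') with h | h
    · refine ⟨x', y', hne', hseg', ?_⟩
      rw [abs_sub_comm, abs_of_nonneg (by linarith), dist_comm, dist_eq_norm] at habs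
      exact habs
    · refine ⟨y', x', hne'.symm, by rwa [segment_symm], ?_⟩
      rw [abs_of_nonneg (by linarith), dist_eq_norm] at habs
      exact habs
  have hlip : ∀ x y : Eu m, segment ℝ x y ⊆ Ω → |u y - u x| ≤ ‖y - x‖ :=
    fun x y h => lip_segment hΩ hmin.1.lip hmin.1.grad h
  set d := ‖y - x‖ with hd
  have hdpos : 0 < d := norm_pos_iff.2 (sub_ne_zero.2 hne.symm)
  set e : Eu m := d⁻¹ • (y - x) with he'
  have he : ‖e‖ = 1 := by
    rw [he', norm_smul, norm_inv, Real.norm_eq_abs, abs_of_pos hdpos, ← hd]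
    exact inv_mul_cancel₀ hdpos.ne'
  have hde : d • e = y - x := by rw [he', smul_smul, mul_inv_cancel₀ hdpos.ne', one_smul]
  have hxΩ : x ∈ Ω := hseg (left_mem_segment ℝ x y)
  -- affine along the segment
  have hmem : ∀ r ∈ Icc (0:ℝ) d, x + r • e ∈ segment ℝ x y := by
    intro r hr
    rw [segment_eq_image_lineMap]
    refine ⟨r / d, ⟨by have := hr.1; positivity, by rw [div_le_one hdpos]; exact hr.2⟩, ?_⟩
    rw [AffineMap.lineMap_apply, vsub_eq_sub, vadd_eq_add, ← hde, smul_smul,
      div_mul_cancel₀ _ hdpos.ne', add_comm]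
  have hyx : x + d • e = y := by rw [hde]; abel
  have haff : ∀ r ∈ Icc (0:ℝ) d, u (x + r • e) = u x + r := by
    intro r hr
    have hr2 := hmem r hr
    have hs1 : segment ℝ x (x + r • e) ⊆ Ω :=
      ((convex_segment x y).segment_subset (left_mem_segment ℝ x y) hr2).trans hseg
    have hs2 : segment ℝ (x + r • e) y ⊆ Ω :=
      ((convex_segment x y).segment_subset hr2 (right_mem_segment ℝ x y)).trans hseg
    have h1 := hlip _ _ hs1
    have h2 := hlip _ _ hs2
    rw [add_sub_cancel_left, norm_smul, he, mul_one, Real.norm_eq_abs, abs_of_nonneg hr.1] at h1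
    have h3 : y - (x + r • e) = (d - r) • e := by
      rw [← hyx, add_sub_add_left_eq_sub, ← sub_smul]
    have hr3 : |d - r| = d - r := abs_of_nonneg (by linarith [hr.2])
    rw [h3, norm_smul, he, mul_one, Real.norm_eq_abs, hr3] at h2
    have h4 := (abs_le.1 h1).2
    have h5 := (abs_le.1 h2).2
    linarith
  -- forward end
  obtain ⟨T, hT0, hT1, hT2, hT3, hT4⟩ := exists_end hΩ hb hmin.1.cont hlip he hxΩ
  have hdT : d ≤ T := hT3 d hdpos.le (fun r hr => ⟨hseg (hmem r hr), haff r hr⟩)
  -- backward end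
  have hminn := hmin.neg
  have hlipn : ∀ x y : Eu m, segment ℝ x y ⊆ Ω → |-u y - -u x| ≤ ‖y - x‖ := by
    intro x y h
    have := hlip x y h
    rwa [show -u y - -u x = -(u y - u x) by ring, abs_neg]
  have hen : ‖-e‖ = 1 := by rw [norm_neg, he]
  obtain ⟨T', hT0', hT1', hT2', hT3', hT4'⟩ :=
    exists_end (u := fun z => -u z) hΩ hb hminn.1.cont hlipn hen hxΩ
  rcases hT4 with hfr | ⟨hbΩ, hfront⟩
  · rcases hT4' with hfr' | ⟨hbΩ', hfront'⟩
    · -- both ends on the boundary
      set b := x + T • e with hbdef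
      set a := x + T' • (-e) with hadef
      have hub : u b = u x + T := hT2 T ⟨hT0, le_rfl⟩
      have hua : u a = u x - T' := by
        have := hT2' T' ⟨hT0', le_rfl⟩
        linarith
      have hba : b - a = (T + T') • e := by
        rw [hbdef, hadef, smul_neg, add_smul]; abel
      have hTT : 0 < T + T' := by linarith
      have hnab : a ≠ b := by
        intro h
        have : b - a = 0 := by rw [h]; simp
        rw [hba] at this
        have h2 := congrArg norm this
        rw [norm_smul, he, norm_zero, mul_one, Real.norm_eq_abs, abs_of_pos hTT] at h2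
        linarith
      have hopen : openSegment ℝ a b ⊆ Ω := by
        rw [openSegment_eq_image_lineMap]
        rintro _ ⟨q, hq, rfl⟩
        rw [AffineMap.lineMap_apply, vsub_eq_sub, vadd_eq_add, hba, smul_smul]
        have h1 : (q * (T + T')) • e + a = x + (q * (T + T') - T') • e := by
          rw [hadef, smul_neg, sub_smul]; abel
        rw [h1]
        rcases le_or_gt 0 (q * (T + T') - T') with h | h
        · exact hT1 _ ⟨h, by nlinarith [hq.2]⟩
        · have h2 := hT1' (-(q * (T + T') - T')) ⟨by linarith, by nlinarith [hq.1]⟩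
          rwa [neg_smul_neg] at h2
      have hlt := hφ.2 a hfr' b hfr hnab
      have hle := pathDist_le hopen
      have h3 : |φ a - φ b| = dist a b := by
        rw [← hmin.1.bdry a hfr', ← hmin.1.bdry b hfr, hua, hub, dist_comm, dist_eq_norm, hba,
          norm_smul, he, mul_one, Real.norm_eq_abs, ← abs_neg]
        congr 1; ring
      rw [h3] at hlt
      exact absurd (hlt.trans_le hle) (lt_irrefl _)
    · -- backward end inside
      refine no_interior_end hm hΩ hb (ρ := fun z => -ρ z) hρ.neg (fun K hK hKc => (hρ' K hK hKc).neg)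
        hminn hen hbΩ' (d := d) hdpos ?_ hfront'
      intro s hs
      have hTe : -u (x + T' • -e) = -u x + T' := hT2' T' ⟨hT0', le_rfl⟩
      have h1 : x + T' • -e + -s • -e = x + (s - T') • e := by
        rw [neg_smul_neg, smul_neg, sub_smul]; abel
      rw [h1, hTe]
      rcases le_or_gt 0 (s - T') with h | h
      · rw [haff (s - T') ⟨h, by linarith [hs.2]⟩]; ring
      · have h2 := hT2' (T' - s) ⟨by linarith, by linarith [hs.1]⟩
        have h3 : x + (T' - s) • -e = x + (s - T') • e := by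
          rw [smul_neg, ← neg_smul]; congr 2; ring
        simp only [h3] at h2
        rw [h2]; ring
  · -- forward end inside
    refine no_interior_end hm hΩ hb hρ hρ' hmin he hbΩ (d := d) hdpos ?_ hfront
    intro s hs
    have h1 : x + T • e + -s • e = x + (T - s) • e := by
      rw [neg_smul, sub_smul]; abel
    rw [h1, hT2 (T - s) ⟨by linarith [hs.2], by linarith [hs.1]⟩, hT2 T ⟨hT0, le_rfl⟩]
    ring

end Pool.Agent.H9.BI
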