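import Pool.Agent.H9.BI.Tools

open MeasureTheory Set Metric Filter
open scoped ENNReal NNReal Topology Gradient RealInnerProductSpace

namespace Pool.Agent.H9.BI

variable {m : ℕ}

/-- open cylinder around the end of the light segment -/
def Wset (c e : Eu m) (L τ : ℝ) : Set (Eu m) :=
  {x | -(L / (32 * m)) < zc c e x ∧ zc c e x < L / (64 * m) + τ ∧ rr c e x < L ^ 2}

theorem isOpen_Wset (c e : Eu m) (L τ : ℝ) : IsOpen (Wset c e L τ) := by
  have h1 : IsOpen {x : Eu m | -(L / (32 * m)) < zc c e x} :=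
    isOpen_lt continuous_const (continuous_zc c e)
  have h2 : IsOpen {x : Eu m | zc c e x < L / (64 * m) + τ} :=
    isOpen_lt (continuous_zc c e) continuous_const
  have h3 : IsOpen {x : Eu m | rr c e x < L ^ 2} :=
    isOpen_lt (continuous_rr c e) continuous_const
  exact h1.inter (h2.inter h3)

structure LocData (c e : Eu m) (U : Eu m → ℝ) (uc L τ η : ℝ) : Prop where
  hm : 2 ≤ m
  he : ‖e‖ = 1
  hL : 0 < L
  hτ : 0 < τ
  hτ2 : τ ≤ L / (64 * m)
  hη : 0 < η
  hU : LipschitzWith 1 U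
  ha : U (c + (-L) • e) = uc - L
  hb : U (c + (L / (64 * m)) • e) = uc + L / (64 * m)
  hb' : U (c + (L / (64 * m) + τ) • e) ≤ uc + L / (64 * m) + τ - η

theorem norm_aux {N s r : ℝ} (hs : 0 < s) (hr : 0 ≤ r) (h : N ^ 2 = s ^ 2 + r) :
    N ≤ s + r / (2 * s) := by
  by_contra hcon
  push Not at hcon
  have h1 : 0 ≤ s + r / (2 * s) := by positivity
  have h2 : (s + r / (2 * s)) ^ 2 < N ^ 2 := by nlinarith
  have h3 : (s + r / (2 * s)) ^ 2 = s ^ 2 + r + (r / (2 * s)) ^ 2 := by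
    field_simp; ring
  have h4 : 0 ≤ (r / (2 * s)) ^ 2 := by positivity
  linarith

variable {c e : Eu m} {U : Eu m → ℝ} {uc L τ η : ℝ}

theorem LocData.z_le (H : LocData c e U uc L τ η) {x : Eu m} (hx : x ∈ Wset c e L τ) :
    zc c e x ≤ L / (32 * m) := by
  have h1 := hx.2.1
  have h2 := H.hτ2
  have hm0 : (0:ℝ) < m := by have := H.hm; exact_mod_cast (by omega : 0 < m)
  have : L / (64 * m) + L / (64 * m) = L / (32 * m) := by field_simp; ring
  linarith

theorem LocData.U_le (H : LocData c e U uc L τ η) (p x : Eu m) : U x ≤ U p + ‖x - p‖ := by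
  have := H.hU.dist_le_mul x p
  rw [Real.dist_eq, dist_eq_norm] at this
  simp only [NNReal.coe_one, one_mul] at this
  linarith [le_abs_self (U x - U p)]

theorem LocData.basic (H : LocData c e U uc L τ η) {t : ℝ} (ht : 0 < t) (ht1 : t ^ 2 ≤ 1 / 8)
    {x : Eu m} (hx : x ∈ Wset c e L τ) (hF : 0 < U x - (uc + psi c e L (16 * m / L) (t ^ 2) x)) :
    0 < zc c e x ∧ rr c e x ≤ 3 * L * t ^ 2 * zc c e x ∧
      U x - (uc + psi c e L (16 * m / L) (t ^ 2) x) ≤ t ^ 2 * L := by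
  have hm' : (2:ℝ) ≤ m := by exact_mod_cast H.hm
  have hm0 : (0:ℝ) < m := by linarith
  have hL := H.hL
  have hz2 := H.z_le hx
  obtain ⟨hx1, hx2, hx3⟩ := hx
  have hq0 : 0 ≤ rr c e x := rr_nonneg c H.he x
  have hN := norm_sub_axis c H.he x (-L)
  have hUx := H.U_le (c + (-L) • e) x
  rw [H.ha] at hUx
  unfold psi at hF ⊢
  set z := zc c e x with hz
  set q := rr c e x with hq
  set N := ‖x - (c + (-L) • e)‖ with hNdef
  have hN' : N ^ 2 = (z + L) ^ 2 + q := by rw [hN]; ring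
  have ht2 : 0 < t ^ 2 := by positivity
  have hsmall : L / (32 * m) ≤ L / 64 := by
    have : L / (32 * m) ≤ L / (32 * 2) := by gcongr
    calc L / (32 * m) ≤ L / (32 * 2) := this
      _ = L / 64 := by norm_num
  have hΛz : 16 * m / L * z ≤ 1 / 2 := by
    calc 16 * m / L * z ≤ 16 * m / L * (L / (32 * m)) := by gcongr
      _ = 1 / 2 := by field_simp; norm_num
  have hΛz' : -(1 / 2) ≤ 16 * m / L * z := by
    calc -(1 / 2) = 16 * m / L * (-(L / (32 * m))) := by field_simp; norm_num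
      _ ≤ 16 * m / L * z := by gcongr
  rcases le_or_gt z 0 with hz0 | hz0
  · exfalso
    have hs : 0 < z + L := by linarith
    have hN2 := norm_aux hs hq0 hN'
    have hq2 : q / (2 * (z + L)) ≤ q / L := by
      gcongr; linarith
    have h1 : t ^ 2 * (z + 16 * m / L * z ^ 2) ≤ 0 := by
      have : z + 16 * m / L * z ^ 2 = z * (1 + 16 * m / L * z) := by ring
      rw [this]
      have h2 : z * (1 + 16 * m / L * z) ≤ 0 :=
        mul_nonpos_of_nonpos_of_nonneg hz0 (by linarith)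
      exact mul_nonpos_of_nonneg_of_nonpos ht2.le h2
    linarith
  · have hs : 0 < z + L := by linarith
    have hN2 := norm_aux hs hq0 hN'
    have hq2 : q / (2 * (z + L)) ≤ q / (2 * L) := by
      gcongr; linarith
    have hq3 : q / (2 * L) = q / L / 2 := by field_simp
    have h1 : t ^ 2 * (z + 16 * m / L * z ^ 2) ≤ 3 / 2 * t ^ 2 * z := by
      have : z + 16 * m / L * z ^ 2 = z * (1 + 16 * m / L * z) := by ring
      rw [this]
      have h2 : z * (1 + 16 * m / L * z) ≤ z * (3 / 2) := by gcongr; linarith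
      nlinarith
    refine ⟨hz0, ?_, ?_⟩
    · have h3 : q / L < 3 * t ^ 2 * z := by linarith
      rw [div_lt_iff₀ hL] at h3
      nlinarith
    · have h4 : 0 ≤ q / L := by positivity
      have h5 : 3 / 2 * t ^ 2 * z ≤ t ^ 2 * L := by
        have : z ≤ L / 64 := hz2.trans hsmall
        nlinarith
      linarith

theorem LocData.front (H : LocData c e U uc L τ η) {t : ℝ} (ht : 0 < t) (ht1 : t ^ 2 ≤ 1 / 8)
    (ht2 : t * L ≤ η)
    {x : Eu m} (hx : x ∈ Wset c e L τ) (hF : 0 < U x - (uc + psi c e L (16 * m / L) (t ^ 2) x)) :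
    zc c e x ≤ L / (64 * m) + τ - η / 8 ∧ rr c e x ≤ t ^ 2 * (L ^ 2 / 16) := by
  obtain ⟨hz0, hr, -⟩ := H.basic ht ht1 hx hF
  have hm' : (2:ℝ) ≤ m := by exact_mod_cast H.hm
  have hm0 : (0:ℝ) < m := by linarith
  have hL := H.hL
  have hη := H.hη
  have hz2 := H.z_le hx
  obtain ⟨hx1, hx2, hx3⟩ := hx
  have hq0 : 0 ≤ rr c e x := rr_nonneg c H.he x
  have hN := norm_sub_axis c H.he x (L / (64 * m) + τ)
  have hUx := H.U_le (c + (L / (64 * m) + τ) • e) x
  have hb' := H.hb'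
  unfold psi at hF
  set z := zc c e x with hz
  set q := rr c e x with hq
  set N := ‖x - (c + (L / (64 * m) + τ) • e)‖ with hNdef
  set b := L / (64 * m) + τ with hbdef
  have hsmall : L / (32 * m) ≤ L / 64 := by
    have : L / (32 * m) ≤ L / (32 * 2) := by gcongr
    calc L / (32 * m) ≤ L / (32 * 2) := this
      _ = L / 64 := by norm_num
  have hzL : z ≤ L / 64 := hz2.trans hsmall
  have hq1 : q ≤ t ^ 2 * (L ^ 2 / 16) := by
    have h3 : 3 * L * t ^ 2 * z ≤ 3 * L * t ^ 2 * (L / 64) := by gcongr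
    have h4 : 0 ≤ t ^ 2 * L ^ 2 := by positivity
    have h5 : 3 * L * t ^ 2 * (L / 64) = 3 / 64 * (t ^ 2 * L ^ 2) := by ring
    have h6 : t ^ 2 * (L ^ 2 / 16) = 4 / 64 * (t ^ 2 * L ^ 2) := by ring
    linarith
  refine ⟨?_, hq1⟩
  by_contra hcon
  push Not at hcon
  have ht0 : t ≤ 1 := by
    by_contra h
    push Not at h
    have : 1 < t ^ 2 := by nlinarith only [h]
    linarith
  have htt : t ^ 2 ≤ t := by nlinarith only [ht0, ht]
  have hN2 : N ≤ η / 8 + t * L / 4 := by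
    apply le_of_sq_le_sq _ (by positivity)
    rw [hN]
    have h1 : (z - b) ^ 2 ≤ (η / 8) ^ 2 := by
      apply sq_le_sq'
      · linarith
      · linarith
    have h2 : 0 ≤ η / 8 * (t * L / 4) := by positivity
    have h3 : (η / 8 + t * L / 4) ^ 2 = (η / 8) ^ 2 + 2 * (η / 8 * (t * L / 4)) +
      t ^ 2 * (L ^ 2 / 16) := by ring
    linarith
  have hΛz : 16 * m / L * z ≤ 1 / 2 := by
    calc 16 * m / L * z ≤ 16 * m / L * (L / (32 * m)) := by gcongr
      _ = 1 / 2 := by field_simp; norm_num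
  have h1 : t ^ 2 * (z + 16 * m / L * z ^ 2) ≤ 3 / 2 * t ^ 2 * z := by
    have : z + 16 * m / L * z ^ 2 = z * (1 + 16 * m / L * z) := by ring
    rw [this]
    have h2 : z * (1 + 16 * m / L * z) ≤ z * (3 / 2) := by gcongr; linarith
    calc t ^ 2 * (z * (1 + 16 * m / L * z)) ≤ t ^ 2 * (z * (3 / 2)) := by gcongr
      _ = 3 / 2 * t ^ 2 * z := by ring
  have h5 : 3 / 2 * t ^ 2 * z ≤ 3 / 128 * (t * L) := by
    have h6 : t ^ 2 * z ≤ t * (L / 64) := by
      calc t ^ 2 * z ≤ t * z := by gcongr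
        _ ≤ t * (L / 64) := by gcongr
    linarith
  have h6 : 0 ≤ q / L := by positivity
  linarith

theorem LocData.inner (H : LocData c e U uc L τ η) {t : ℝ} (ht : 0 < t)
    {x : Eu m} (hx : x ∈ cyl c e (L / (64 * m) / 4) (L / (64 * m) / 2)
      (t ^ 2 * ((L / (64 * m)) ^ 2 / 16))) :
    t ^ 2 * (L / (64 * m)) / 8 ≤ U x - (uc + psi c e L (16 * m / L) (t ^ 2) x) := by
  have hm' : (2:ℝ) ≤ m := by exact_mod_cast H.hm
  have hm0 : (0:ℝ) < m := by linarith
  have hL := H.hL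
  have hl : 0 < L / (64 * m) := by positivity
  have hlL : L / (64 * m) ≤ L := by
    rw [div_le_iff₀ (by positivity)]
    nlinarith
  obtain ⟨hx1, hx2, hx3⟩ := hx
  change L / (64 * m) / 4 ≤ zc c e x at hx1
  change zc c e x ≤ L / (64 * m) / 2 at hx2
  change rr c e x ≤ _ at hx3
  have hq0 : 0 ≤ rr c e x := rr_nonneg c H.he x
  have hN := norm_sub_axis c H.he x (L / (64 * m))
  have hUx := H.U_le x (c + (L / (64 * m)) • e)
  rw [H.hb, norm_sub_rev] at hUx
  unfold psi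
  set z := zc c e x with hz
  set q := rr c e x with hq
  set N := ‖x - (c + (L / (64 * m)) • e)‖ with hNdef
  set l := L / (64 * m) with hldef
  have hs : 0 < l - z := by linarith
  have hN' : N ^ 2 = (l - z) ^ 2 + q := by rw [hN]; ring
  have hN2 := norm_aux hs hq0 hN'
  have hq2 : q / (2 * (l - z)) ≤ q / l := by
    gcongr; linarith
  have hq3 : q / L ≤ q / l := by gcongr
  have hq4 : q / l ≤ t ^ 2 * l / 16 := by
    rw [div_le_iff₀ hl]
    calc q ≤ t ^ 2 * (l ^ 2 / 16) := hx3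
      _ = t ^ 2 * l / 16 * l := by ring
  have ht2 : 0 < t ^ 2 := by positivity
  have h1 : t ^ 2 * (l / 4) ≤ t ^ 2 * (z + 16 * m / L * z ^ 2) := by
    gcongr
    have : 0 ≤ 16 * m / L * z ^ 2 := by positivity
    linarith
  linarith

theorem LocData.cyl_sub (H : LocData c e U uc L τ η) {t : ℝ} (ht1 : t ^ 2 ≤ 1 / 8) :
    cyl c e (L / (64 * m) / 4) (L / (64 * m) / 2) (t ^ 2 * ((L / (64 * m)) ^ 2 / 16)) ⊆
      Wset c e L τ := by
  have hm' : (2:ℝ) ≤ m := by exact_mod_cast H.hm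
  have hm0 : (0:ℝ) < m := by linarith
  have hL := H.hL
  have hτ := H.hτ
  have hl : 0 < L / (64 * m) := by positivity
  have hl2 : 0 < L / (32 * m) := by positivity
  have hlL : L / (64 * m) ≤ L := by
    rw [div_le_iff₀ (by positivity)]
    nlinarith
  rintro x ⟨hx1, hx2, hx3⟩
  change L / (64 * m) / 4 ≤ zc c e x at hx1
  change zc c e x ≤ L / (64 * m) / 2 at hx2
  change rr c e x ≤ _ at hx3
  refine ⟨by linarith, by linarith, ?_⟩
  have h1 : (L / (64 * m)) ^ 2 ≤ L ^ 2 := by gcongr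
  have h2 : t ^ 2 * ((L / (64 * m)) ^ 2 / 16) ≤ 1 / 8 * (L ^ 2 / 16) := by gcongr
  have h3 : 0 < L ^ 2 := by positivity
  linarith

end Pool.Agent.H9.BI
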