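import Pool.Agent.H9.BI.Defs

open MeasureTheory Set Metric Filter
open scoped ENNReal NNReal Topology Gradient RealInnerProductSpace

namespace Pool.Agent.H9.BI

theorem integrable_fderiv_mul {m : ℕ} {G : Eu m → ℝ} {C : ℝ≥0} (hG : LipschitzWith C G)
    (hc : HasCompactSupport G) (v : Eu m) {f : Eu m → ℝ} (hf : Continuous f) :
    Integrable (fun x => fderiv ℝ G x v * f x) := by
  have h1 : Integrable ((tsupport G).indicator f) := by
    rw [integrable_indicator_iff (isClosed_tsupport G).measurableSet]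
    exact hf.continuousOn.integrableOn_compact hc
  have h2 : (fun x => fderiv ℝ G x v * f x) =
      fun x => fderiv ℝ G x v * (tsupport G).indicator f x := by
    funext x
    by_cases hx : x ∈ tsupport G
    · rw [indicator_of_mem hx]
    · rw [indicator_of_notMem hx]
      have : fderiv ℝ G x = 0 := by
        by_contra hne
        exact hx (support_fderiv_subset ℝ hne)
      simp [this]
  rw [h2]
  refine Integrable.bdd_mul (c := C * ‖v‖) h1 ?_ ?_
  · exact (measurable_fderiv_apply_const ℝ G v).aestronglyMeasurable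
  · refine Eventually.of_forall fun x => ?_
    calc ‖fderiv ℝ G x v‖ ≤ ‖fderiv ℝ G x‖ * ‖v‖ := ContinuousLinearMap.le_opNorm _ _
      _ ≤ C * ‖v‖ := by
        gcongr
        exact norm_fderiv_le_of_lipschitz ℝ hG

theorem ibp_one {m : ℕ} {G : Eu m → ℝ} {C : ℝ≥0} (hG : LipschitzWith C G)
    (hc : HasCompactSupport G) (v w c : Eu m) (p q : ℝ) :
    ∫ x, fderiv ℝ G x v * (p + q * ⟪x - c, w⟫) = -(q * ⟪v, w⟫) * ∫ x, G x := by
  set f : Eu m → ℝ := fun x => p + q * ⟪x - c, w⟫ with hf
  have hflip : LipschitzWith (‖q‖₊ * ‖w‖₊) f := by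
    refine LipschitzWith.of_dist_le_mul fun x y => ?_
    have : f x - f y = q * ⟪x - y, w⟫ := by
      simp only [hf, inner_sub_left]; ring
    rw [Real.dist_eq, this, abs_mul, dist_eq_norm]
    push_cast
    simp only [Real.norm_eq_abs]
    calc |q| * |⟪x - y, w⟫| ≤ |q| * (‖x - y‖ * ‖w‖) := by
          gcongr; exact abs_real_inner_le_norm _ _
      _ = |q| * ‖w‖ * ‖x - y‖ := by ring
  have hmain := LipschitzWith.integral_lineDeriv_mul_eq (μ := volume) hflip hG hc v
  have h1 : ∀ x, lineDeriv ℝ f x v = q * ⟪v, w⟫ := by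
    intro x
    have : HasDerivAt (fun t : ℝ => f (x + t • v)) (q * ⟪v, w⟫) 0 := by
      have e : (fun t : ℝ => f (x + t • v)) = fun t => (p + q * ⟪x - c, w⟫) + t * (q * ⟪v, w⟫) := by
        funext t
        simp only [hf]
        rw [show x + t • v - c = (x - c) + t • v by abel, inner_add_left, real_inner_smul_left]
        ring
      rw [e]
      simpa using ((hasDerivAt_id (0:ℝ)).mul_const (q * ⟪v, w⟫)).const_add (p + q * ⟪x - c, w⟫)
    exact this.deriv
  simp only [h1] at hmain
  rw [integral_const_mul] at hmain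
  have h2 : ∫ x, lineDeriv ℝ G x (-v) * f x = ∫ x, -(fderiv ℝ G x v * f x) := by
    refine integral_congr_ae ?_
    filter_upwards [hG.ae_differentiableAt (μ := volume)] with x hx
    rw [hx.lineDeriv_eq_fderiv]
    simp
  rw [h2, integral_neg] at hmain
  linarith

theorem fderiv_decomp {m : ℕ} {G : Eu m → ℝ} (c e : Eu m) (K p q : ℝ) (x : Eu m) :
    fderiv ℝ G x ((p + q * ⟪x - c, e⟫) • e + K • (x - c)) =
      fderiv ℝ G x e * (p + q * ⟪x - c, e⟫) +
        K * ∑ i, fderiv ℝ G x (EuclideanSpace.single i 1) *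
          (0 + 1 * ⟪x - c, EuclideanSpace.single i (1:ℝ)⟫) := by
  have hsum : fderiv ℝ G x (x - c) =
      ∑ i, fderiv ℝ G x (EuclideanSpace.single i 1) *
        (0 + 1 * ⟪x - c, EuclideanSpace.single i (1:ℝ)⟫) := by
    have : x - c = ∑ i, (⟪x - c, EuclideanSpace.single i (1:ℝ)⟫) • EuclideanSpace.single i (1:ℝ) := by
      ext j
      simp [EuclideanSpace.inner_single_right, PiLp.sub_apply, Pi.single_apply]
    conv_lhs => rw [this]
    rw [map_sum]
    refine Finset.sum_congr rfl fun i _ => ?_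
    rw [map_smul, smul_eq_mul]; ring
  rw [map_add, map_smul, map_smul, ← hsum, smul_eq_mul, smul_eq_mul]; ring

theorem integrable_fderiv_V {m : ℕ} {G : Eu m → ℝ} {C : ℝ≥0} (hG : LipschitzWith C G)
    (hc : HasCompactSupport G) (c e : Eu m) (K p q : ℝ) :
    Integrable (fun x => fderiv ℝ G x ((p + q * ⟪x - c, e⟫) • e + K • (x - c))) := by
  simp only [fderiv_decomp]
  refine Integrable.add ?_ ?_
  · exact integrable_fderiv_mul hG hc _ (by fun_prop)
  · refine Integrable.const_mul ?_ _
    refine integrable_finsetSum _ fun i _ => ?_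
    exact integrable_fderiv_mul hG hc _ (by fun_prop)

theorem ibp {m : ℕ} {G : Eu m → ℝ} {C : ℝ≥0} (hG : LipschitzWith C G)
    (hc : HasCompactSupport G) (c e : Eu m) (he : ‖e‖ = 1) (K p q : ℝ) :
    ∫ x, fderiv ℝ G x ((p + q * ⟪x - c, e⟫) • e + K • (x - c)) = -(K * m + q) * ∫ x, G x := by
  have hee : ⟪e, e⟫ = 1 := by rw [real_inner_self_eq_norm_sq, he]; norm_num
  simp only [fderiv_decomp]
  rw [integral_add, integral_const_mul, integral_finsetSum]
  · simp only [ibp_one hG hc]
    rw [hee]
    have : ∀ i : Fin m, ⟪(EuclideanSpace.single i (1:ℝ) : Eu m), EuclideanSpace.single i (1:ℝ)⟫ = 1 := by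
      intro i; simp
    simp only [this]
    simp
    ring
  · intro i _
    exact integrable_fderiv_mul hG hc _ (by fun_prop)
  · exact integrable_fderiv_mul hG hc _ (by fun_prop)
  · refine Integrable.const_mul ?_ _
    refine integrable_finsetSum _ fun i _ => ?_
    exact integrable_fderiv_mul hG hc _ (by fun_prop)

end Pool.Agent.H9.BI
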