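import Pool.Agent.H9.BI.Defs

open MeasureTheory Set Metric Filter
open scoped ENNReal NNReal Topology Gradient

namespace Pool.Agent.H9.BI

/-- A locally Lipschitz function on an open set whose a.e. gradient has norm at most one is
1-Lipschitz along segments. -/
theorem lip_segment {m : ℕ} {Ω : Set (Eu m)} (hΩ : IsOpen Ω) {u : Eu m → ℝ}
    (hu : LocallyLipschitzOn Ω u) (hg : ∀ᵐ x ∂(volume.restrict Ω), ‖∇ u x‖ ≤ 1)
    {x y : Eu m} (hxy : segment ℝ x y ⊆ Ω) : |u y - u x| ≤ ‖y - x‖ := by
  classical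
  have hcs : IsCompact (segment ℝ x y) := by
    rw [segment_eq_image_lineMap]
    exact isCompact_Icc.image (AffineMap.lineMap_continuous)
  obtain ⟨δ, hδ, hδΩ⟩ := hcs.exists_cthickening_subset_open hΩ hxy
  set T' := cthickening δ (segment ℝ x y) with hT'
  have hT'c : IsCompact T' := hcs.cthickening
  obtain ⟨C, hC⟩ := LocallyLipschitzOn.exists_lipschitzOnWith_of_compact hT'c (hu.mono hδΩ)
  set T := thickening δ (segment ℝ x y) with hT
  have hTo : IsOpen T := isOpen_thickening
  have hTT' : T ⊆ T' := thickening_subset_cthickening _ _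
  have hTΩ : T ⊆ Ω := hTT'.trans hδΩ
  -- the bad set
  have hdiff : ∀ᵐ z : Eu m, z ∈ T → (DifferentiableAt ℝ u z ∧ ‖∇ u z‖ ≤ 1) := by
    have h1 : ∀ᵐ z : Eu m, z ∈ T → DifferentiableWithinAt ℝ u T z :=
      (hC.mono hTT').ae_differentiableWithinAt_of_mem
    have h2 : ∀ᵐ z : Eu m, z ∈ Ω → ‖∇ u z‖ ≤ 1 := by
      rwa [ae_restrict_iff' hΩ.measurableSet] at hg
    filter_upwards [h1, h2] with z hz1 hz2 hz
    exact ⟨(hz1 hz).differentiableAt (hTo.mem_nhds hz), hz2 (hTΩ hz)⟩
  set w := y - x with hw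
  have hNm : ∃ N : Set (Eu m), MeasurableSet N ∧ volume N = 0 ∧
      ∀ z, z ∉ N → z ∈ T → (DifferentiableAt ℝ u z ∧ ‖∇ u z‖ ≤ 1) := by
    obtain ⟨N, hN1, hN2, hN3⟩ := exists_measurable_superset_of_null (ae_iff.1 hdiff)
    refine ⟨N, hN2, hN3, fun z hz hzT => ?_⟩
    by_contra hcon
    apply hz
    apply hN1
    show ¬ (z ∈ T → (DifferentiableAt ℝ u z ∧ ‖∇ u z‖ ≤ 1))
    exact fun h => hcon (h hzT)
  obtain ⟨N, hNmeas, hN0, hNg⟩ := hNm
  have hae : ∀ᵐ s : Eu m, ∀ᵐ t : ℝ, x + s + t • w ∉ N := by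
    have hm : MeasurableSet {p : Eu m × ℝ | x + p.1 + p.2 • w ∉ N} := by
      have : Measurable (fun p : Eu m × ℝ => x + p.1 + p.2 • w) := by fun_prop
      exact this hNmeas.compl
    rw [Measure.ae_ae_comm hm]
    refine Eventually.of_forall fun t => ?_
    have : volume ((fun s : Eu m => s + (x + t • w)) ⁻¹' N) = 0 := by
      rw [measure_preimage_add_right]; exact hN0
    rw [ae_iff]
    convert this using 2
    ext s
    simp only [mem_ofPred_eq, not_not, mem_preimage]
    rw [show x + s + t • w = s + (x + t • w) by abel]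
  have hkey : ∀ s : Eu m, ‖s‖ < δ → (∀ᵐ t : ℝ, x + s + t • w ∉ N) →
      |u (y + s) - u (x + s)| ≤ ‖w‖ := by
    intro s hs hN
    have hmem : ∀ t ∈ Icc (0 : ℝ) 1, x + s + t • w ∈ T := by
      intro t ht
      rw [hT, mem_thickening_iff]
      refine ⟨x + t • w, ?_, ?_⟩
      · rw [segment_eq_image_lineMap]
        refine ⟨t, ht, ?_⟩
        rw [AffineMap.lineMap_apply, vsub_eq_sub, vadd_eq_add, hw, add_comm]
      · rw [dist_eq_norm]
        have : x + s + t • w - (x + t • w) = s := by abel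
        rw [this]; exact hs
    set h : ℝ → ℝ := fun t => u (x + s + t • w) with hh
    have hlip : LipschitzOnWith (C * ‖w‖₊) h (uIcc 0 1) := by
      rw [uIcc_of_le zero_le_one]
      have hl2 : LipschitzOnWith ‖w‖₊ (fun t : ℝ => x + s + t • w) (Icc 0 1) := by
        refine LipschitzOnWith.of_dist_le_mul fun a _ b _ => ?_
        rw [dist_eq_norm]
        have : x + s + a • w - (x + s + b • w) = (a - b) • w := by
          rw [sub_smul]; abel
        rw [this, norm_smul, mul_comm]
        exact le_rfl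
      exact hC.comp hl2 (fun t ht => hTT' (hmem t ht))
    have hAC := hlip.absolutelyContinuousOnInterval
    have hint := hAC.integral_deriv_eq_sub
    have h0 : h 0 = u (x + s) := by simp [hh]
    have h1 : h 1 = u (y + s) := by
      simp only [hh, hw, one_smul]
      congr 1; abel
    rw [h0, h1] at hint
    rw [← hint]
    have hb : ∀ᵐ t : ℝ, t ∈ uIoc (0 : ℝ) 1 → ‖deriv h t‖ ≤ ‖w‖ := by
      filter_upwards [hN] with t ht htI
      rw [uIoc_of_le zero_le_one] at htI
      obtain ⟨hd, hgr⟩ := hNg _ ht (hmem t ⟨htI.1.le, htI.2⟩)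
      have hγ : HasDerivAt (fun t : ℝ => x + s + t • w) w t := by
        simpa using ((hasDerivAt_id t).smul_const w).const_add (x + s)
      have hcomp := hd.hasFDerivAt.comp_hasDerivAt t hγ
      have : deriv h t = fderiv ℝ u (x + s + t • w) w := hcomp.deriv
      rw [this]
      calc ‖fderiv ℝ u (x + s + t • w) w‖ ≤ ‖fderiv ℝ u (x + s + t • w)‖ * ‖w‖ :=
            ContinuousLinearMap.le_opNorm _ _
        _ ≤ 1 * ‖w‖ := by
            gcongr
            have : ‖∇ u (x + s + t • w)‖ = ‖fderiv ℝ u (x + s + t • w)‖ := by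
              unfold gradient; simp
            rw [← this]; exact hgr
        _ = ‖w‖ := one_mul _
    have := intervalIntegral.norm_integral_le_of_norm_le_const_ae hb
    simpa using this
  -- let `s → 0`
  by_contra hcon
  push Not at hcon
  have hxΩ : x ∈ Ω := hxy (left_mem_segment ℝ x y)
  have hyΩ : y ∈ Ω := hxy (right_mem_segment ℝ x y)
  have hcx : ContinuousAt u x := hu.continuousOn.continuousAt (hΩ.mem_nhds hxΩ)
  have hcy : ContinuousAt u y := hu.continuousOn.continuousAt (hΩ.mem_nhds hyΩ)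
  have hcont : ContinuousAt (fun s : Eu m => |u (y + s) - u (x + s)|) 0 := by
    have e1 : ContinuousAt (fun s : Eu m => u (y + s)) 0 := by
      apply ContinuousAt.comp (g := u) (f := fun s : Eu m => y + s)
      · simpa using hcy
      · fun_prop
    have e2 : ContinuousAt (fun s : Eu m => u (x + s)) 0 := by
      apply ContinuousAt.comp (g := u) (f := fun s : Eu m => x + s)
      · simpa using hcx
      · fun_prop
    exact (e1.sub e2).abs
  have hev : ∀ᶠ s : Eu m in 𝓝 0, ‖w‖ < |u (y + s) - u (x + s)| := by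
    apply hcont.eventually (lt_mem_nhds _)
    simpa using hcon
  have hev2 : ∀ᶠ s : Eu m in 𝓝 0, ‖s‖ < δ := by
    have : ContinuousAt (fun s : Eu m => ‖s‖) 0 := by fun_prop
    apply this.eventually (gt_mem_nhds _)
    simpa using hδ
  obtain ⟨r, hr, hball⟩ := Metric.eventually_nhds_iff_ball.1 (hev.and hev2)
  have hpos : 0 < volume (ball (0 : Eu m) r) := measure_ball_pos _ _ hr
  have : ∃ s ∈ ball (0 : Eu m) r, ∀ᵐ t : ℝ, x + s + t • w ∉ N := by
    by_contra hno
    push Not at hno
    have : volume (ball (0 : Eu m) r) = 0 := by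
      refine measure_mono_null (fun s hs => ?_) (ae_iff.1 hae)
      exact hno s hs
    exact hpos.ne' this
  obtain ⟨s, hs, hsN⟩ := this
  obtain ⟨h1, h2⟩ := hball s hs
  exact absurd (hkey s h2 hsN) (not_le.2 h1)

end Pool.Agent.H9.BI
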