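import Pool.Agent.H9.BI.Barrier
import Pool.Agent.H9.BI.Ibp
import Pool.Agent.H9.BI.LipA

open MeasureTheory Set Metric Filter
open scoped ENNReal NNReal Topology Gradient RealInnerProductSpace

namespace Pool.Agent.H9.BI

variable {m : ℕ}

/-- tangent plane inequality for the concave function `√(1 - |p|²)` -/
theorem tangent_ineq {p q : Eu m} (hp : ‖p‖ ≤ 1) (hq : 0 < 1 - ‖q‖ ^ 2) :
    √(1 - ‖p‖ ^ 2) - √(1 - ‖q‖ ^ 2) ≤ -((√(1 - ‖q‖ ^ 2))⁻¹ * ⟪p - q, q⟫) := by
  set r := √(1 - ‖p‖ ^ 2) with hr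
  set s := √(1 - ‖q‖ ^ 2) with hs
  have hs0 : 0 < s := Real.sqrt_pos.2 hq
  have hp' : 0 ≤ 1 - ‖p‖ ^ 2 := by nlinarith [norm_nonneg p]
  have hr2 : r ^ 2 = 1 - ‖p‖ ^ 2 := Real.sq_sqrt hp'
  have hs2 : s ^ 2 = 1 - ‖q‖ ^ 2 := Real.sq_sqrt hq.le
  have h1 : ⟪p, q⟫ ≤ (‖p‖ ^ 2 + ‖q‖ ^ 2) / 2 := by
    have := real_inner_le_norm p q
    nlinarith [sq_nonneg (‖p‖ - ‖q‖)]
  rw [inner_sub_left, real_inner_self_eq_norm_sq]
  have h2 : (r - s) * s ≤ -(⟪p, q⟫ - ‖q‖ ^ 2) := by
    nlinarith [sq_nonneg (r - s)]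
  have h3 : r - s ≤ -(⟪p, q⟫ - ‖q‖ ^ 2) / s := by
    rw [le_div_iff₀ hs0]; exact h2
  calc r - s ≤ -(⟪p, q⟫ - ‖q‖ ^ 2) / s := h3
    _ = -(s⁻¹ * (⟪p, q⟫ - ‖q‖ ^ 2)) := by field_simp

theorem lipschitz_of_compact {f : Eu m → ℝ} (hf : LocallyLipschitz f)
    (hc : HasCompactSupport f) : ∃ C, LipschitzWith C f := by
  obtain ⟨R, hR⟩ := hc.isBounded.subset_closedBall (0 : Eu m)
  obtain ⟨K, hK⟩ := LocallyLipschitzOn.exists_lipschitzOnWith_of_compact
    (isCompact_closedBall (0 : Eu m) (R + 1)) (hf.locallyLipschitzOn)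
  obtain ⟨M, hM⟩ := hc.exists_bound_of_continuous hf.continuous
  have hM0 : 0 ≤ M := (norm_nonneg _).trans (hM 0)
  have key : ∀ x y : Eu m, x ∈ closedBall (0 : Eu m) R → y ∉ closedBall (0 : Eu m) (R + 1) →
      dist (f x) (f y) ≤ (max (K : ℝ) M) * dist x y := by
    intro x y hx hy
    have hfy : f y = 0 := by
      by_contra hne
      have := hR (subset_tsupport f hne)
      exact hy (closedBall_subset_closedBall (by linarith) this)
    have hd : 1 ≤ dist x y := by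
      rw [mem_closedBall, dist_zero_right] at hx
      rw [mem_closedBall, dist_zero_right, not_le] at hy
      rw [dist_eq_norm]
      have := norm_sub_norm_le y x
      rw [norm_sub_rev] at this
      linarith
    rw [hfy, dist_zero_right]
    calc ‖f x‖ ≤ M := hM x
      _ ≤ max (K : ℝ) M := le_max_right _ _
      _ = max (K : ℝ) M * 1 := (mul_one _).symm
      _ ≤ max (K : ℝ) M * dist x y := by
        have : 0 ≤ max (K : ℝ) M := hM0.trans (le_max_right _ _)
        gcongr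
  have hzero : ∀ x : Eu m, x ∉ closedBall (0 : Eu m) R → f x = 0 := by
    intro x hx
    by_contra hne
    exact hx (hR (subset_tsupport f hne))
  refine ⟨⟨max (K : ℝ) M, hM0.trans (le_max_right _ _)⟩, LipschitzWith.of_dist_le_mul fun x y => ?_⟩
  show dist (f x) (f y) ≤ max (K : ℝ) M * dist x y
  by_cases hx : x ∈ closedBall (0 : Eu m) (R + 1)
  · by_cases hy : y ∈ closedBall (0 : Eu m) (R + 1)
    · calc dist (f x) (f y) ≤ K * dist x y := hK.dist_le_mul x hx y hy
        _ ≤ max (K : ℝ) M * dist x y := by gcongr; exact le_max_left _ _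
    · by_cases hx2 : x ∈ closedBall (0 : Eu m) R
      · exact key x y hx2 hy
      · have hy2 : y ∉ closedBall (0 : Eu m) R := fun h =>
          hy (closedBall_subset_closedBall (by linarith) h)
        rw [hzero x hx2, hzero y hy2, dist_self]
        have : 0 ≤ max (K : ℝ) M := hM0.trans (le_max_right _ _)
        positivity
  · by_cases hy2 : y ∈ closedBall (0 : Eu m) R
    · rw [dist_comm, dist_comm x y]
      exact key y x hy2 hx
    · have hx2 : x ∉ closedBall (0 : Eu m) R := fun h =>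
          hx (closedBall_subset_closedBall (by linarith) h)
      rw [hzero x hx2, hzero y hy2, dist_self]
      have : 0 ≤ max (K : ℝ) M := hM0.trans (le_max_right _ _)
      positivity

theorem locLip_mul {f g : Eu m → ℝ} (hf : LocallyLipschitz f) (hg : LocallyLipschitz g) :
    LocallyLipschitz (fun x => f x * g x) := by
  have h : LocallyLipschitz (fun p : ℝ × ℝ => p.1 * p.2) :=
    (contDiff_fst.mul contDiff_snd : ContDiff ℝ 1 (fun p : ℝ × ℝ => p.1 * p.2)).locallyLipschitz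
  exact h.comp (hf.prodMk hg)

theorem locLip_sub {f g : Eu m → ℝ} (hf : LocallyLipschitz f) (hg : LocallyLipschitz g) :
    LocallyLipschitz (fun x => f x - g x) := by
  have h : LocallyLipschitz (fun p : ℝ × ℝ => p.1 - p.2) :=
    (contDiff_fst.sub contDiff_snd : ContDiff ℝ 1 (fun p : ℝ × ℝ => p.1 - p.2)).locallyLipschitz
  exact h.comp (hf.prodMk hg)

theorem locLip_indicator {W K : Set (Eu m)} (hW : IsOpen W) (hK : IsClosed K) (hKW : K ⊆ W)
    {F : Eu m → ℝ} (hF : LocallyLipschitz F) (h0 : ∀ x ∈ W, x ∉ K → F x = 0) :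
    LocallyLipschitz (W.indicator F) := by
  intro x
  by_cases hx : x ∈ W
  · obtain ⟨C, s, hs, hC⟩ := hF x
    refine ⟨C, s ∩ W, inter_mem hs (hW.mem_nhds hx), ?_⟩
    intro y hy z hz
    rw [indicator_of_mem hy.2, indicator_of_mem hz.2]
    exact hC hy.1 hz.1
  · refine ⟨0, Kᶜ, hK.isOpen_compl.mem_nhds (fun h => hx (hKW h)), ?_⟩
    have : ∀ y ∈ Kᶜ, W.indicator F y = 0 := by
      intro y hy
      by_cases hyW : y ∈ W
      · rw [indicator_of_mem hyW]; exact h0 y hyW hy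
      · rw [indicator_of_notMem hyW]
    intro y hy z hz
    rw [this y hy, this z hz]
    simp

/-- the truncated weight -/
noncomputable def wt (D : Eu m → ℝ) (a : ℝ) (x : Eu m) : ℝ := (√(max (D x) a))⁻¹

theorem wt_pos {D : Eu m → ℝ} {a : ℝ} (ha : 0 < a) (x : Eu m) : 0 < wt D a x := by
  unfold wt
  have : 0 < max (D x) a := lt_max_of_lt_right ha
  positivity

theorem locLip_wt {D : Eu m → ℝ} (hD : LocallyLipschitz D) {a : ℝ} (ha : 0 < a) :
    LocallyLipschitz (wt D a) := by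
  intro x
  have h1 : LocallyLipschitz (fun x => max (D x) a) := hD.max_const a
  have hpos : 0 < max (D x) a := lt_max_of_lt_right ha
  have h2 : ContDiffAt ℝ 1 (fun s : ℝ => (√s)⁻¹) (max (D x) a) :=
    (Real.contDiffAt_sqrt hpos.ne').inv (Real.sqrt_pos.2 hpos).ne'
  obtain ⟨K, s, hs, hK⟩ := h2.exists_lipschitzOnWith
  obtain ⟨C, r, hr, hC⟩ := h1 x
  refine ⟨K * C, r ∩ (fun x => max (D x) a) ⁻¹' s,
    inter_mem hr (h1.continuous.continuousAt hs), ?_⟩
  exact hK.comp (hC.mono inter_subset_left) (fun y hy => hy.2)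

theorem continuous_wt {D : Eu m → ℝ} (hD : Continuous D) {a : ℝ} (ha : 0 < a) :
    Continuous (wt D a) := by
  unfold wt
  refine Continuous.inv₀ (by fun_prop) fun x => ?_
  have : 0 < max (D x) a := lt_max_of_lt_right ha
  exact (Real.sqrt_pos.2 this).ne'

theorem wt_eq {D : Eu m → ℝ} {a : ℝ} {x : Eu m} (h : a ≤ D x) : wt D a x = (√(D x))⁻¹ := by
  unfold wt; rw [max_eq_left h]

theorem hasFDerivAt_wt {D : Eu m → ℝ} {D' : Eu m →L[ℝ] ℝ} {a : ℝ} (ha : 0 < a) {x : Eu m}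
    (hD : HasFDerivAt D D' x) (h : a < D x) :
    HasFDerivAt (wt D a) ((-((√(D x))⁻¹ ^ 3 / 2)) • D') x := by
  have hpos : 0 < D x := ha.trans h
  have h1 : HasDerivAt (fun s : ℝ => (√s)⁻¹) (-((√(D x))⁻¹ ^ 3 / 2)) (D x) := by
    have h2 := (Real.hasDerivAt_sqrt hpos.ne').inv (Real.sqrt_pos.2 hpos).ne'
    refine h2.congr_deriv ?_
    have := Real.sqrt_pos.2 hpos
    field_simp
  have h3 := h1.comp_hasFDerivAt x hD
  refine h3.congr_of_eventuallyEq ?_
  have : ∀ᶠ y in 𝓝 x, a < D y := hD.continuousAt.eventually (lt_mem_nhds h)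
  filter_upwards [this] with y hy
  exact wt_eq hy.le

end Pool.Agent.H9.BI
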