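import Pool.Agent.H9.BI.Defs

open MeasureTheory Set Metric Filter
open scoped ENNReal NNReal Topology Gradient RealInnerProductSpace

namespace Pool.Agent.H9.BI

/-- closed solid cylinder with axis direction `e` -/
def cyl {m : ℕ} (c e : Eu m) (a b s : ℝ) : Set (Eu m) :=
  {x | a ≤ ⟪x - c, e⟫ ∧ ⟪x - c, e⟫ ≤ b ∧ ‖x - c‖ ^ 2 - ⟪x - c, e⟫ ^ 2 ≤ s}

noncomputable def dil {m : ℕ} (e : Eu m) (t : ℝ) : Eu m →ₗ[ℝ] Eu m :=
  t • LinearMap.transvection ((innerSL ℝ e : Eu m →L[ℝ] ℝ) : Eu m →ₗ[ℝ] ℝ) (((1 - t) / t) • e)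

theorem dil_apply {m : ℕ} (e : Eu m) {t : ℝ} (ht : t ≠ 0) (x : Eu m) :
    dil e t x = t • x + ((1 - t) * ⟪x, e⟫) • e := by
  simp only [dil, LinearMap.smul_apply, LinearMap.transvection.apply]
  simp only [ContinuousLinearMap.coe_coe, innerSL_apply_apply]
  rw [smul_add, smul_smul, smul_smul, real_inner_comm]
  congr 2
  field_simp

theorem det_dil {m : ℕ} (hm : 1 ≤ m) (e : Eu m) (he : ‖e‖ = 1) {t : ℝ} (ht : 0 < t) :
    LinearMap.det (dil e t) = t ^ (m - 1) := by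
  rw [dil, LinearMap.det_smul, LinearMap.transvection.det]
  simp only [ContinuousLinearMap.coe_coe, innerSL_apply_apply, real_inner_smul_right,
    finrank_euclideanSpace, Fintype.card_fin]
  rw [real_inner_self_eq_norm_sq, he]
  obtain ⟨k, rfl⟩ : ∃ k, m = k + 1 := ⟨m - 1, by omega⟩
  simp only [Nat.add_sub_cancel]
  field_simp
  ring

theorem inner_dil {m : ℕ} (e : Eu m) (he : ‖e‖ = 1) {t : ℝ} (ht : t ≠ 0) (x : Eu m) :
    ⟪dil e t x, e⟫ = ⟪x, e⟫ := by
  have hee : ⟪e, e⟫ = 1 := by rw [real_inner_self_eq_norm_sq, he]; norm_num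
  rw [dil_apply e ht, inner_add_left, real_inner_smul_left, real_inner_smul_left, hee]
  ring

theorem norm_dil {m : ℕ} (e : Eu m) (he : ‖e‖ = 1) {t : ℝ} (ht : t ≠ 0) (x : Eu m) :
    ‖dil e t x‖ ^ 2 - ⟪dil e t x, e⟫ ^ 2 = t ^ 2 * (‖x‖ ^ 2 - ⟪x, e⟫ ^ 2) := by
  have hee : ⟪e, e⟫ = 1 := by rw [real_inner_self_eq_norm_sq, he]; norm_num
  rw [inner_dil e he ht, dil_apply e ht, norm_add_sq_real, norm_smul, norm_smul, he,
    real_inner_smul_left, real_inner_smul_right]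
  simp only [Real.norm_eq_abs, mul_pow, sq_abs]
  ring

theorem dil_inv {m : ℕ} (e : Eu m) (he : ‖e‖ = 1) {t : ℝ} (ht : t ≠ 0) (x : Eu m) :
    dil e t (dil e t⁻¹ x) = x := by
  rw [dil_apply e ht, inner_dil e he (inv_ne_zero ht), dil_apply e (inv_ne_zero ht), smul_add,
    smul_smul, smul_smul, mul_inv_cancel₀ ht, one_smul, add_assoc, ← add_smul]
  have : t * ((1 - t⁻¹) * ⟪x, e⟫) + (1 - t) * ⟪x, e⟫ = 0 := by
    field_simp; ring
  rw [this, zero_smul, add_zero]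

theorem image_dil {m : ℕ} (e : Eu m) (he : ‖e‖ = 1) {t : ℝ} (ht : 0 < t) (a b s : ℝ) :
    dil e t '' cyl 0 e a b s = cyl 0 e a b (t ^ 2 * s) := by
  ext x
  constructor
  · rintro ⟨y, ⟨h1, h2, h3⟩, rfl⟩
    simp only [sub_zero] at h1 h2 h3
    refine ⟨?_, ?_, ?_⟩
    · simpa [inner_dil e he ht.ne'] using h1
    · simpa [inner_dil e he ht.ne'] using h2
    · simp only [sub_zero]
      rw [norm_dil e he ht.ne']
      gcongr
  · rintro ⟨h1, h2, h3⟩
    simp only [sub_zero] at h1 h2 h3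
    refine ⟨dil e t⁻¹ x, ⟨?_, ?_, ?_⟩, dil_inv e he ht.ne' x⟩
    · simpa [inner_dil e he (inv_ne_zero ht.ne')] using h1
    · simpa [inner_dil e he (inv_ne_zero ht.ne')] using h2
    · simp only [sub_zero]
      rw [norm_dil e he (inv_ne_zero ht.ne')]
      calc t⁻¹ ^ 2 * (‖x‖ ^ 2 - ⟪x, e⟫ ^ 2) ≤ t⁻¹ ^ 2 * (t ^ 2 * s) := by gcongr
        _ = s := by field_simp

theorem cyl_eq_preimage {m : ℕ} (c e : Eu m) (a b s : ℝ) :
    cyl c e a b s = (fun x => x - c) ⁻¹' cyl 0 e a b s := by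
  ext x; simp [cyl]

theorem volume_cyl_center {m : ℕ} (c e : Eu m) (a b s : ℝ) :
    volume (cyl c e a b s) = volume (cyl 0 e a b s) := by
  rw [cyl_eq_preimage]
  have := measure_preimage_add_right (volume : Measure (Eu m)) (-c) (cyl 0 e a b s)
  simpa [sub_eq_add_neg] using this

theorem volume_cyl_scale {m : ℕ} (hm : 1 ≤ m) (c e : Eu m) (he : ‖e‖ = 1) {t : ℝ} (ht : 0 < t)
    (a b s : ℝ) :
    volume (cyl c e a b (t ^ 2 * s)) = ENNReal.ofReal (t ^ (m - 1)) * volume (cyl c e a b s) := by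
  rw [volume_cyl_center, volume_cyl_center c, ← image_dil e he ht,
    Measure.addHaar_image_linearMap, det_dil hm e he ht, abs_of_nonneg (by positivity)]

theorem isClosed_cyl {m : ℕ} (c e : Eu m) (a b s : ℝ) : IsClosed (cyl c e a b s) := by
  have h1 : IsClosed {x : Eu m | a ≤ ⟪x - c, e⟫} := isClosed_le (by fun_prop) (by fun_prop)
  have h2 : IsClosed {x : Eu m | ⟪x - c, e⟫ ≤ b} := isClosed_le (by fun_prop) (by fun_prop)
  have h3 : IsClosed {x : Eu m | ‖x - c‖ ^ 2 - ⟪x - c, e⟫ ^ 2 ≤ s} :=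
    isClosed_le (by fun_prop) (by fun_prop)
  exact h1.inter (h2.inter h3)

theorem isBounded_cyl {m : ℕ} (c e : Eu m) (a b s : ℝ) :
    Bornology.IsBounded (cyl c e a b s) := by
  refine (isBounded_iff_subset_closedBall c).2 ⟨√(a ^ 2 + b ^ 2 + |s|), ?_⟩
  rintro x ⟨h1, h2, h3⟩
  rw [mem_closedBall, dist_eq_norm]
  apply Real.le_sqrt_of_sq_le
  have : ⟪x - c, e⟫ ^ 2 ≤ a ^ 2 + b ^ 2 := by
    rcases le_or_gt 0 ⟪x - c, e⟫ with h | h
    · nlinarith [sq_nonneg a]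
    · nlinarith [sq_nonneg b]
  have := le_abs_self s
  linarith

theorem isCompact_cyl {m : ℕ} (c e : Eu m) (a b s : ℝ) : IsCompact (cyl c e a b s) :=
  Metric.isCompact_of_isClosed_isBounded (isClosed_cyl c e a b s) (isBounded_cyl c e a b s)

theorem volume_cyl_lt_top {m : ℕ} (c e : Eu m) (a b s : ℝ) : volume (cyl c e a b s) < ∞ :=
  (isCompact_cyl c e a b s).measure_lt_top

theorem volume_cyl_pos {m : ℕ} (c e : Eu m) (he : ‖e‖ = 1) {a b s : ℝ} (hab : a < b)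
    (hs : 0 < s) : 0 < volume (cyl c e a b s) := by
  set U : Set (Eu m) := {x | a < ⟪x - c, e⟫} ∩ ({x | ⟪x - c, e⟫ < b} ∩
    {x | ‖x - c‖ ^ 2 - ⟪x - c, e⟫ ^ 2 < s}) with hU
  have hUo : IsOpen U := by
    apply IsOpen.inter
    · exact isOpen_lt (by fun_prop) (by fun_prop)
    · apply IsOpen.inter
      · exact isOpen_lt (by fun_prop) (by fun_prop)
      · exact isOpen_lt (by fun_prop) (by fun_prop)
  have hsub : U ⊆ cyl c e a b s := fun x hx => ⟨hx.1.le, hx.2.1.le, hx.2.2.le⟩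
  have hee : ⟪e, e⟫ = 1 := by rw [real_inner_self_eq_norm_sq, he]; norm_num
  have hne : U.Nonempty := by
    refine ⟨c + ((a + b) / 2) • e, ?_, ?_, ?_⟩
    · simp only [mem_ofPred_eq, add_sub_cancel_left, real_inner_smul_left, hee]; linarith
    · simp only [mem_ofPred_eq, add_sub_cancel_left, real_inner_smul_left, hee]; linarith
    · simp only [mem_ofPred_eq, add_sub_cancel_left, real_inner_smul_left, hee, norm_smul, he,
        Real.norm_eq_abs, mul_one, sq_abs]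
      linarith
  exact (hUo.measure_pos volume hne).trans_le (measure_mono hsub)

end Pool.Agent.H9.BI
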